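import Pool.Agent.NH24.GR.Stm

/-! Job GR-1: the operators `T12, ..., T34` are linear (`S_lin`), and the relations of disjoint strands
(`S_disj`). -/

set_option autoImplicit false

namespace Pool.Agent.NH24.GR.Br168

open Pool.Agent.H777R4.DM Pool.Agent.NH24.GR

theorem lin12 : (∀ Φ Ψ : N, T12 (Φ + Ψ) = T12 Φ + T12 Ψ) ∧
    ∀ (c : ℚ) (Φ : N), T12 (c • Φ) = c • T12 Φ := by
  constructor
  · intro Φ Ψ
    funext l b R
    cases R <;> simp [T12, Pi.add_apply] <;> ring
  · intro c Φ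
    funext l b R
    cases R <;> simp [T12, Pi.smul_apply, smul_eq_mul] <;> ring

theorem lin13 : (∀ Φ Ψ : N, T13 (Φ + Ψ) = T13 Φ + T13 Ψ) ∧
    ∀ (c : ℚ) (Φ : N), T13 (c • Φ) = c • T13 Φ := by
  constructor
  · intro Φ Ψ
    funext l b R
    cases l <;> simp [T13, Pi.add_apply] <;> ring
  · intro c Φ
    funext l b R
    cases l <;> simp [T13, Pi.smul_apply, smul_eq_mul] <;> ring

theorem lin23 : (∀ Φ Ψ : N, T23 (Φ + Ψ) = T23 Φ + T23 Ψ) ∧
    ∀ (c : ℚ) (Φ : N), T23 (c • Φ) = c • T23 Φ := by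
  constructor
  · intro Φ Ψ
    funext l b R
    cases l <;> cases R <;> simp only [T23, Pi.add_apply] <;> ring
  · intro c Φ
    funext l b R
    cases l <;> cases R <;> simp only [T23, Pi.smul_apply, smul_eq_mul] <;> ring

theorem lin14 : (∀ Φ Ψ : N, T14 (Φ + Ψ) = T14 Φ + T14 Ψ) ∧
    ∀ (c : ℚ) (Φ : N), T14 (c • Φ) = c • T14 Φ := by
  constructor
  · intro Φ Ψ
    funext l b R
    simp only [T14, Pi.add_apply]
    ring
  · intro c Φ
    funext l b R
    simp only [T14, Pi.smul_apply, smul_eq_mul]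
    ring

theorem lin24 : (∀ Φ Ψ : N, T24 (Φ + Ψ) = T24 Φ + T24 Ψ) ∧
    ∀ (c : ℚ) (Φ : N), T24 (c • Φ) = c • T24 Φ := by
  constructor
  · intro Φ Ψ
    funext l b R
    cases l <;> cases R <;> simp only [T24, Pi.add_apply] <;> ring
  · intro c Φ
    funext l b R
    cases l <;> cases R <;> simp only [T24, Pi.smul_apply, smul_eq_mul] <;> ring

theorem lin34 : (∀ Φ Ψ : N, T34 (Φ + Ψ) = T34 Φ + T34 Ψ) ∧
    ∀ (c : ℚ) (Φ : N), T34 (c • Φ) = c • T34 Φ := by
  constructor
  · intro Φ Ψ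
    funext l b R
    cases l <;> simp only [T34, Pi.add_apply] <;> ring
  · intro c Φ
    funext l b R
    cases l <;> simp only [T34, Pi.smul_apply, smul_eq_mul] <;> ring

theorem d1 (Φ : N) : T12 (T34 Φ) = T34 (T12 Φ) := by
  funext l b R
  cases l <;> cases R <;> simp [T12, T34]

theorem d2 (Φ : N) : T13 (T24 Φ) = T24 (T13 Φ) := by
  funext l b R
  cases l with
  | nil => cases R <;> simp [T13, T24, fl]
  | cons a l2 =>
    cases R with
    | nil => cases l2 <;> simp [T13, T24]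
    | cons c R2 => cases l2 <;> simp [T13, T24]

theorem d3 (Φ : N) : T14 (T23 Φ) = T23 (T14 Φ) := by
  funext l b R
  cases l with
  | nil => cases R <;> simp [T14, T23]
  | cons a l2 =>
    cases R with
    | nil => simp [T14, T23]
    | cons c R2 =>
      have e : ∀ b : ℚ, fl (a :: l2) b = fl l2 a := fun b => by cases l2 <;> rfl
      simp only [T14, T23, e]
      ring

end Pool.Agent.NH24.GR.Br168

namespace Pool.Agent.NH24.GR

theorem t_lin : S_lin := by
  intro T hT
  simp only [List.mem_cons, List.not_mem_nil, or_false] at hT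
  rcases hT with rfl | rfl | rfl | rfl | rfl | rfl
  · exact Br168.lin12
  · exact Br168.lin13
  · exact Br168.lin23
  · exact Br168.lin14
  · exact Br168.lin24
  · exact Br168.lin34

theorem t_disj : S_disj := fun Φ => ⟨Br168.d1 Φ, Br168.d2 Φ, Br168.d3 Φ⟩

end Pool.Agent.NH24.GR
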