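import Pool.Agent.NH24.GR.Stm

/-! Project GR, GR-2: the braid relations of the strands 1, 2, 3. -/

set_option autoImplicit false

namespace Pool.Agent.NH24.GR

theorem t_tri123 : S_tri123 := by
  intro Φ
  refine ⟨?_, ?_, ?_⟩
  · funext l b R
    rcases l with _ | ⟨a, _ | ⟨a', l⟩⟩ <;> rcases R with _ | ⟨c, _ | ⟨c', R⟩⟩ <;>
      simp only [T12, T13, T23, zl, fl, Pi.add_apply, List.getLastD_cons, List.getLastD_nil,
        List.dropLast_cons_cons, List.dropLast_singleton] <;> ring
  · funext l b R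
    rcases l with _ | ⟨a, _ | ⟨a', l⟩⟩ <;> rcases R with _ | ⟨c, _ | ⟨c', R⟩⟩ <;>
      simp only [T12, T13, T23, zl, fl, Pi.add_apply, List.getLastD_cons, List.getLastD_nil,
        List.dropLast_cons_cons, List.dropLast_singleton] <;> ring
  · funext l b R
    rcases l with _ | ⟨a, _ | ⟨a', l⟩⟩ <;> rcases R with _ | ⟨c, _ | ⟨c', R⟩⟩ <;>
      simp only [T12, T13, T23, zl, fl, Pi.add_apply, List.getLastD_cons, List.getLastD_nil,
        List.dropLast_cons_cons, List.dropLast_singleton] <;> ring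
end Pool.Agent.NH24.GR
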