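import Pool.Agent.NH24.GR.Stm

/-! GR-3 TRI124: the relations of the strands 1, 2, 4 (helper72). -/

set_option autoImplicit false

namespace Pool.Agent.NH24.GR

theorem t_tri124 : S_tri124 := by
  intro Φ
  refine ⟨?_, ?_, ?_⟩
  · funext l b R
    rcases l with _ | ⟨a, l'⟩
    · rcases R with _ | ⟨c, _ | ⟨c', R''⟩⟩
      · simp only [T12, T14, T24, Pi.add_apply, zl, fl, List.getLastD_nil]
        ring
      · simp only [T12, T14, T24, Pi.add_apply, zl, fl, List.getLastD_nil, List.getLastD_cons,
          List.dropLast_singleton]
        ring
      · simp only [T12, T14, T24, Pi.add_apply, zl, fl, List.getLastD_nil, List.getLastD_cons,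
          List.dropLast_cons_cons]
        ring
    · rcases R with _ | ⟨c, R'⟩
      · simp only [T12, T14, T24, Pi.add_apply, zl, fl, List.getLastD_nil, List.getLastD_cons]
        ring
      · simp only [T12, T14, T24, Pi.add_apply, zl, fl, List.getLastD_cons]
        ring
  · funext l b R
    rcases l with _ | ⟨a, l'⟩
    · rcases R with _ | ⟨c, _ | ⟨c', R''⟩⟩
      · simp only [T12, T14, T24, Pi.add_apply, zl, fl, List.getLastD_nil]
        ring
      · simp only [T12, T14, T24, Pi.add_apply, zl, fl, List.getLastD_nil, List.getLastD_cons,
          List.dropLast_singleton]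
        ring
      · simp only [T12, T14, T24, Pi.add_apply, zl, fl, List.getLastD_nil, List.getLastD_cons,
          List.dropLast_cons_cons]
        ring
    · rcases R with _ | ⟨c, R'⟩
      · simp only [T12, T14, T24, Pi.add_apply, zl, fl, List.getLastD_nil, List.getLastD_cons]
        ring
      · simp only [T12, T14, T24, Pi.add_apply, zl, fl, List.getLastD_cons]
        ring
  · funext l b R
    rcases l with _ | ⟨a, l'⟩
    · rcases R with _ | ⟨c, _ | ⟨c', R''⟩⟩
      · simp only [T12, T14, T24, Pi.add_apply, zl, fl, List.getLastD_nil]
        ring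
      · simp only [T12, T14, T24, Pi.add_apply, zl, fl, List.getLastD_nil, List.getLastD_cons,
          List.dropLast_singleton]
        ring
      · simp only [T12, T14, T24, Pi.add_apply, zl, fl, List.getLastD_nil, List.getLastD_cons,
          List.dropLast_cons_cons]
        ring
    · rcases R with _ | ⟨c, R'⟩
      · simp only [T12, T14, T24, Pi.add_apply, zl, fl, List.getLastD_nil, List.getLastD_cons]
        ring
      · simp only [T12, T14, T24, Pi.add_apply, zl, fl, List.getLastD_cons]
        ring

end Pool.Agent.NH24.GR
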