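import Pool.Agent.NH24.GR.Stm

/-! Project GR (MP_446dfa_ag), file `Br4`: the relations of the strands 1, 3, 4. -/

set_option autoImplicit false

namespace Pool.Agent.NH24.GR

namespace Br4

theorem fl_nil (b : ℚ) : fl [] b = b := rfl

theorem fl_concat (m : List ℚ) (e b : ℚ) : fl (m ++ [e]) b = e := by
  simp [fl]

theorem fl_cons_concat (a : ℚ) (m : List ℚ) (e b : ℚ) : fl (a :: (m ++ [e])) b = e :=
  fl_concat (a :: m) e b

theorem T13_nil (Φ : N) (b : ℚ) (R : List ℚ) : T13 Φ [] b R = 0 := by
  simp [T13, fl]

theorem T13_cons (Φ : N) (a : ℚ) (l : List ℚ) (b : ℚ) (R : List ℚ) :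
    T13 Φ (a :: l) b R = (b - fl (a :: l) b) * Φ (a :: l) b R +
      (Φ l a R - Φ (a :: l).dropLast b R) := rfl

theorem T14_eq (Φ : N) (l : List ℚ) (b : ℚ) (R : List ℚ) :
    T14 Φ l b R = fl l b * Φ l b R := rfl

theorem T34_nil (Φ : N) (b : ℚ) (R : List ℚ) : T34 Φ [] b R = 0 := rfl

theorem T34_cons (Φ : N) (a : ℚ) (l : List ℚ) (b : ℚ) (R : List ℚ) :
    T34 Φ (a :: l) b R = Φ (a :: l).dropLast b R := rfl

theorem T34_concat (Φ : N) (m : List ℚ) (e b : ℚ) (R : List ℚ) :
    T34 Φ (m ++ [e]) b R = Φ m b R := by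
  cases m with
  | nil => rfl
  | cons a m =>
    rw [List.cons_append, T34_cons]
    congr 1
    rw [← List.cons_append, List.dropLast_concat]

theorem drop_cons (a : ℚ) (m : List ℚ) (e : ℚ) : (a :: (m ++ [e])).dropLast = a :: m := by
  rw [← List.cons_append, List.dropLast_concat]

theorem add_app (Φ Ψ : N) (l : List ℚ) (b : ℚ) (R : List ℚ) :
    (Φ + Ψ) l b R = Φ l b R + Ψ l b R := rfl

end Br4

open Br4 in
/-- (BR5) the relations of the strands 1, 3, 4 -/
theorem t_tri134 : S_tri134 := by
  intro Φ
  refine ⟨?_, ?_, ?_⟩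
  · funext l b R
    cases l with
    | nil =>
      simp only [add_app, T13_nil, T14_eq, T34_nil]
      ring
    | cons a l' =>
      rcases List.eq_nil_or_concat l' with rfl | ⟨m, e, rfl⟩
      · have h1 : fl [a] b = a := rfl
        have h2 : ([a] : List ℚ).dropLast = [] := rfl
        simp only [add_app, T13_cons, T13_nil, T14_eq, T34_nil, T34_cons, h1, h2, fl_nil]
        ring
      · simp only [List.concat_eq_append, add_app, T13_cons, T14_eq, T34_cons, T34_concat,
          fl_cons_concat, fl_concat, drop_cons]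
        ring
  · funext l b R
    cases l with
    | nil =>
      simp only [add_app, T13_nil, T14_eq, T34_nil]
      ring
    | cons a l' =>
      rcases List.eq_nil_or_concat l' with rfl | ⟨m, e, rfl⟩
      · have h1 : fl [a] b = a := rfl
        have h2 : ([a] : List ℚ).dropLast = [] := rfl
        simp only [add_app, T13_cons, T13_nil, T14_eq, T34_nil, T34_cons, h1, h2, fl_nil]
        ring
      · simp only [List.concat_eq_append, add_app, T13_cons, T14_eq, T34_cons, T34_concat,
          fl_cons_concat, fl_concat, drop_cons]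
        ring
  · funext l b R
    cases l with
    | nil =>
      simp only [add_app, T13_nil, T14_eq, T34_nil]
      ring
    | cons a l' =>
      rcases List.eq_nil_or_concat l' with rfl | ⟨m, e, rfl⟩
      · have h1 : fl [a] b = a := rfl
        have h2 : ([a] : List ℚ).dropLast = [] := rfl
        simp only [add_app, T13_cons, T13_nil, T14_eq, T34_nil, T34_cons, h1, h2, fl_nil]
        ring
      · simp only [List.concat_eq_append, add_app, T13_cons, T14_eq, T34_cons, T34_concat,
          fl_cons_concat, fl_concat, drop_cons]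
        ring

end Pool.Agent.NH24.GR
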