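import Pool.Agent.NH24.GR.Stm

/-! Project GR, (BR6): the braid relations of the strands 2, 3, 4. -/

set_option autoImplicit false

namespace Pool.Agent.NH24.GR

theorem t_tri234 : S_tri234 := by
  intro Φ
  refine ⟨?_, ?_, ?_⟩ <;> funext l b R <;> rcases l with _ | ⟨a, _ | ⟨a', l⟩⟩ <;>
    rcases R with _ | ⟨c, R⟩ <;> simp [T23, T24, T34, Pi.add_apply]

end Pool.Agent.NH24.GR
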