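import Pool.Agent.NH24.GR.Stm

/-! Project GR, (S4): the lowest level of the words in `T12 + T13`, `T24 + T34`. -/

set_option autoImplicit false

namespace Pool.Agent.NH24.GR

theorem Dl_nil (b : ℚ) : Dl [] b [] = [] := rfl

theorem Dl_nil_cons (b c : ℚ) (R : List ℚ) :
    Dl [] b (c :: R) = (zl b (c :: R) - b) :: Dl [] c R := by
  have h : zl b (c :: R) = zl c R := by unfold zl; rw [List.getLastD_cons]
  unfold Dl
  rw [h]
  rfl

theorem nil_or_app (l : List ℚ) : l = [] ∨ ∃ m e, l = m ++ [e] := by
  rcases List.eq_nil_or_concat l with h | ⟨m, e, h⟩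
  · exact Or.inl h
  · exact Or.inr ⟨m, e, by simpa using h⟩

theorem Dl_concat (m : List ℚ) (e b : ℚ) (R : List ℚ) :
    Dl (m ++ [e]) b R = (zl b R - e) :: Dl m b R := by
  unfold Dl
  rw [List.reverse_append, List.reverse_singleton, List.singleton_append, List.cons_append,
    List.dropLast_cons_of_ne_nil (by simp), List.map_cons]

theorem four_aux (u : List (Fin 2)) : ∀ (l : List ℚ) (b : ℚ) (R : List ℚ),
    wop (fun Φ => A12 Φ + A13 Φ) (fun Φ => T24 Φ + T34 Φ) u Φ0 l b R = mono u (Dl l b R) := by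
  induction u with
  | nil =>
    intro l b R
    rcases nil_or_app l with rfl | ⟨m, e, rfl⟩
    · cases R with
      | nil => rw [Dl_nil]; simp [wop, Φ0, mono]
      | cons c R => rw [Dl_nil_cons]; simp [wop, Φ0, mono]
    · rw [Dl_concat]; simp [wop, Φ0, mono]
  | cons i v ih =>
    intro l b R
    have hi : i = 0 ∨ i = 1 := by omega
    rcases hi with rfl | rfl
    · have h1 : wop (fun Φ => A12 Φ + A13 Φ) (fun Φ => T24 Φ + T34 Φ) (0 :: v) Φ0 l b R =
          (zl b R - fl l b) * mono v (Dl l b R) := by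
        have h2 : wop (fun Φ => A12 Φ + A13 Φ) (fun Φ => T24 Φ + T34 Φ) (0 :: v) Φ0 l b R =
          (zl b R - b) * wop (fun Φ => A12 Φ + A13 Φ) (fun Φ => T24 Φ + T34 Φ) v Φ0 l b R +
          (b - fl l b) * wop (fun Φ => A12 Φ + A13 Φ) (fun Φ => T24 Φ + T34 Φ) v Φ0 l b R := by
          simp [wop, A12, A13]
        rw [h2, ih]
        ring
      rw [h1]
      rcases nil_or_app l with rfl | ⟨m, e, rfl⟩
      · cases R with
        | nil => rw [Dl_nil]; simp [zl, fl, mono]
        | cons c R => rw [Dl_nil_cons]; simp [fl, mono]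
      · rw [Dl_concat]; simp [fl, mono]
    · have h2 : wop (fun Φ => A12 Φ + A13 Φ) (fun Φ => T24 Φ + T34 Φ) (1 :: v) Φ0 l b R =
          T24 (wop (fun Φ => A12 Φ + A13 Φ) (fun Φ => T24 Φ + T34 Φ) v Φ0) l b R +
          T34 (wop (fun Φ => A12 Φ + A13 Φ) (fun Φ => T24 Φ + T34 Φ) v Φ0) l b R := by
        simp [wop]
      rw [h2]
      rcases nil_or_app l with rfl | ⟨m, e, rfl⟩
      · cases R with
        | nil => rw [Dl_nil]; simp [T24, T34, mono]
        | cons c R =>
          rw [Dl_nil_cons]
          simp only [T24, T34, mono, if_true, add_zero]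
          exact ih [] c R
      · rw [Dl_concat]
        have h3 : ∀ Φ : N, T24 Φ (m ++ [e]) b R = 0 := by
          intro Φ
          cases m <;> simp [T24]
        have h4 : ∀ Φ : N, T34 Φ (m ++ [e]) b R = Φ m b R := by
          intro Φ
          have h5 : m ++ [e] ≠ [] := by simp
          obtain ⟨a, l', h6⟩ := List.exists_cons_of_ne_nil h5
          have h7 : m = (a :: l').dropLast := by rw [← h6, List.dropLast_concat]
          rw [h6, h7]
          rfl
        rw [h3, h4, ih]
        simp [mono]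

theorem t_four : S_four := fun u l b R => four_aux u l b R

end Pool.Agent.NH24.GR
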