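import Pool.Agent.NH24.GR.Stm
import Pool.Agent.H217R3.DM.Comp

/-! Project GR: linear combinations and homogeneous parts of elements of `grt_1`. -/

set_option autoImplicit false

namespace Pool.Agent.NH24.GR

open Pool.Agent.H777R4.DM MonoidAlgebra

attribute [local instance 100] LieRing.ofAssociativeRing

namespace Gs

theorem ev_single {B : Type} [Ring B] [Algebra ℚ B] (a b : B) (m : FreeMonoid (Fin 2)) :
    ev a b (MonoidAlgebra.single m 1) = FreeMonoid.lift ![a, b] m := by
  unfold ev
  rw [MonoidAlgebra.lift_single, one_smul]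

theorem x_eq (i : Fin 2) : (x i : A) = MonoidAlgebra.single (FreeMonoid.of i) 1 := by
  simp [x, wd, MonoidAlgebra.of]

theorem ev_x0 {B : Type} [Ring B] [Algebra ℚ B] (a b : B) : ev a b (x 0) = a := by
  rw [x_eq, ev_single, FreeMonoid.lift_eval_of]
  rfl

theorem ev_x1 {B : Type} [Ring B] [Algebra ℚ B] (a b : B) : ev a b (x 1) = b := by
  rw [x_eq, ev_single, FreeMonoid.lift_eval_of]
  rfl

theorem map_ev {B B' : Type} [Ring B] [Algebra ℚ B] [Ring B'] [Algebra ℚ B'] (f : B →ₐ[ℚ] B')
    (a b : B) (ψ : A) : f (ev a b ψ) = ev (f a) (f b) ψ := by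
  have h : f.comp (ev a b) = ev (f a) (f b) := by
    refine MonoidAlgebra.algHom_ext (fun m => ?_) (by ext)
    rw [AlgHom.comp_apply, ev_single, ev_single]
    induction m using FreeMonoid.inductionOn' with
    | one => simp
    | of_mul i v ih =>
      rw [map_mul, map_mul, map_mul, ih, FreeMonoid.lift_eval_of, FreeMonoid.lift_eval_of]
      congr 1
      fin_cases i <;> rfl
  rw [← h, AlgHom.comp_apply]

theorem ev_self (ψ : A) : ev (x 0) (x 1) ψ = ψ := by
  have h : ev (x 0 : A) (x 1) = AlgHom.id ℚ A := by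
    refine MonoidAlgebra.algHom_ext (fun m => ?_) (by ext)
    rw [ev_single, AlgHom.id_apply]
    induction m using FreeMonoid.inductionOn' with
    | one => simp [MonoidAlgebra.one_def]
    | of_mul i v ih =>
      rw [map_mul, ih, FreeMonoid.lift_eval_of]
      have e : (![x 0, x 1] i : A) = MonoidAlgebra.single (FreeMonoid.of i) 1 := by
        rw [← x_eq]
        fin_cases i <;> rfl
      rw [e, single_mul_single, one_mul]
  rw [h, AlgHom.id_apply]

open Polynomial in
theorem coeff_ev {B : Type} [Ring B] [Algebra ℚ B] (a b : B) (w : ℕ) (ψ : A) :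
    (ev (C a * X) (C b * X) ψ : B[X]).coeff w = ev a b (comp w ψ) := by
  have hm : ∀ m : FreeMonoid (Fin 2), FreeMonoid.lift ![(C a * X : B[X]), C b * X] m =
      C (FreeMonoid.lift ![a, b] m) * X ^ (FreeMonoid.toList m).length := by
    intro m
    induction m using FreeMonoid.inductionOn' with
    | one => simp
    | of_mul i v ih =>
      rw [map_mul, map_mul, ih, FreeMonoid.lift_eval_of, FreeMonoid.lift_eval_of]
      have e : (![(C a * X : B[X]), C b * X] i) = C (![a, b] i) * X := by
        fin_cases i <;> rfl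
      have e2 : (FreeMonoid.toList (FreeMonoid.of i * v)).length =
          (FreeMonoid.toList v).length + 1 := by
        simp [FreeMonoid.toList_mul]
      rw [e, e2, map_mul, pow_succ']
      calc C (![a, b] i) * X * (C (FreeMonoid.lift ![a, b] v) * X ^ (FreeMonoid.toList v).length)
          = C (![a, b] i) * (X * C (FreeMonoid.lift ![a, b] v)) *
            X ^ (FreeMonoid.toList v).length := by simp only [mul_assoc]
        _ = C (![a, b] i) * (C (FreeMonoid.lift ![a, b] v) * X) *
            X ^ (FreeMonoid.toList v).length := by rw [X_mul_C]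
        _ = _ := by simp only [mul_assoc]
  induction ψ using MonoidAlgebra.induction_linear with
  | zero => simp
  | add f g hf hg => simp only [map_add, Polynomial.coeff_add, hf, hg]
  | single m r =>
    have h1 : (MonoidAlgebra.single m r : A) = r • MonoidAlgebra.single m 1 := by simp
    rw [h1, map_smul, map_smul, map_smul, Polynomial.coeff_smul, ev_single, hm,
      Pool.Agent.H217R3.DMC.comp_eq, Pool.Agent.H217R3.DMC.pr_single, coeff_C_mul, coeff_X_pow]
    congr 1
    by_cases h : (FreeMonoid.toList m).length = w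
    · have h' : Pool.Agent.H217R3.DMC.ωA m = w := h
      rw [if_pos h.symm, if_pos h', mul_one, ev_single]
    · have h' : ¬ Pool.Agent.H217R3.DMC.ωA m = w := h
      rw [if_neg (Ne.symm h), if_neg h', mul_zero, map_zero]

theorem co_sub' (P Q : A) (v : List (Fin 2)) : co (P - Q) v = co P v - co Q v := by
  simp [co]

theorem co_smul' (c : ℚ) (P : A) (v : List (Fin 2)) : co (c • P) v = c * co P v := by
  simp [co]

end Gs

open Gs

theorem t_gs : S_gs := by
  intro ψ₁ ψ₂ h1 h2 κ
  refine ⟨?_, ?_, ?_, ?_, ?_⟩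
  · exact LieX.sub_mem h2.mem (LieX.smul_mem κ h1.mem)
  · intro u hu
    rw [co_sub', co_smul'] at hu
    by_cases h : co ψ₂ u = 0
    · refine h1.low u fun h0 => hu ?_
      rw [h, h0]
      ring
    · exact h2.low u h
  · rw [map_sub, map_smul, h1.anti, h2.anti]
    simp only [smul_neg]
    abel
  · rw [map_sub, map_smul, map_sub, map_smul]
    have e : ψ₂ - κ • ψ₁ + (ev (x 1) (-x 0 - x 1) ψ₂ - κ • ev (x 1) (-x 0 - x 1) ψ₁) +
        (ev (-x 0 - x 1) (x 0) ψ₂ - κ • ev (-x 0 - x 1) (x 0) ψ₁) =
        (ψ₂ + ev (x 1) (-x 0 - x 1) ψ₂ + ev (-x 0 - x 1) (x 0) ψ₂) -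
        κ • (ψ₁ + ev (x 1) (-x 0 - x 1) ψ₁ + ev (-x 0 - x 1) (x 0) ψ₁) := by
      simp only [smul_add]
      abel
    rw [e, h1.hex, h2.hex, smul_zero, sub_zero]
  · intro B _ _ t ht
    have e1 := h1.pent B t ht
    have e2 := h2.pent B t ht
    simp only [map_sub, map_smul]
    have e3 : ∀ a b c d e a' b' c' d' e' : B, a + b = c + d + e → a' + b' = c' + d' + e' →
        a - κ • a' + (b - κ • b') = c - κ • c' + (d - κ • d') + (e - κ • e') := by
      intro a b c d e a' b' c' d' e' h h'
      have h3 : a - κ • a' + (b - κ • b') = (a + b) - κ • (a' + b') := by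
        rw [smul_add]; abel
      rw [h3, h, h']
      simp only [smul_add]
      abel
    exact e3 _ _ _ _ _ _ _ _ _ _ e2 e1

open Polynomial in
theorem t_gc : S_gc := by
  intro ψ h w
  refine ⟨Pool.Agent.H217R3.DMC.LieX_le h.mem w, ?_, ?_, ?_, ?_⟩
  · intro u hu
    rw [Pool.Agent.H217R3.DMC.co_comp] at hu
    split_ifs at hu with h1
    · exact h.low u hu
    · exact absurd rfl hu
  · have e := congrArg (fun P => (ev (C (x 0) * X) (C (x 1) * X) P : A[X]).coeff w) h.anti
    simp only [map_ev, ev_x0, ev_x1, map_neg, Polynomial.coeff_neg, coeff_ev, ev_self] at e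
    exact e
  · have e := congrArg (fun P => (ev (C (x 0) * X) (C (x 1) * X) P : A[X]).coeff w) h.hex
    have e1 : ev (C (x 0) * X) (C (x 1) * X) (- x 0 - x 1) = (C (- x 0 - x 1) * X : A[X]) := by
      rw [map_sub, map_neg, ev_x0, ev_x1]
      apply Polynomial.ext
      intro n
      rw [Polynomial.coeff_sub, Polynomial.coeff_neg, coeff_C_mul, coeff_C_mul, coeff_C_mul]
      noncomm_ring
    rw [map_add, map_add, map_ev, map_ev, ev_x0, ev_x1, e1, map_zero, Polynomial.coeff_zero,
      Polynomial.coeff_add, Polynomial.coeff_add, coeff_ev, coeff_ev, coeff_ev, ev_self] at e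
    exact e
  · intro B _ _ t ht
    have hmm : ∀ a b : B, (C a * X : B[X]) * (C b * X) = C (a * b) * X ^ 2 := by
      intro a b
      calc (C a * X : B[X]) * (C b * X) = C a * (X * C b) * X := by simp only [mul_assoc]
        _ = C a * (C b * X) * X := by rw [X_mul_C]
        _ = _ := by rw [map_mul, pow_two]; simp only [mul_assoc]
    have hadd : ∀ a b : B, (C a * X + C b * X : B[X]) = C (a + b) * X := by
      intro a b
      rw [map_add, add_mul]
    have hb : IsBraid (fun i j => (C (t i j) * X : B[X])) := by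
      refine ⟨fun i j => ?_, fun i j k h1 h2 h3 => ?_, fun i j k l h1 h2 h3 h4 h5 h6 => ?_⟩
      · show (C (t i j) * X : B[X]) = C (t j i) * X
        rw [ht.symm i j]
      · show (C (t i j) * X : B[X]) * (C (t i k) * X + C (t j k) * X) =
          (C (t i k) * X + C (t j k) * X) * (C (t i j) * X)
        rw [hadd, hmm, hmm, ht.tri i j k h1 h2 h3]
      · show (C (t i j) * X : B[X]) * (C (t k l) * X) = (C (t k l) * X) * (C (t i j) * X)
        rw [hmm, hmm, ht.disj i j k l h1 h2 h3 h4 h5 h6]
    have e := congrArg (fun P : B[X] => P.coeff w) (h.pent B[X] _ hb)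
    simp only [hadd, Polynomial.coeff_add, coeff_ev] at e
    exact e

end Pool.Agent.NH24.GR
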