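import Pool.Agent.NH24.GR.Stm

/-! GR-7: the lowest level of a word of operators. -/

set_option autoImplicit false

namespace Pool.Agent.NH24.GR

namespace LevAux

lemma monoL {m n : ℕ} (h : m ≤ n) {Φ : N} (hΦ : Lev n Φ) : Lev m Φ :=
  fun l b R hl => hΦ l b R (by omega)

lemma add {m : ℕ} {Φ Ψ : N} (h1 : Lev m Φ) (h2 : Lev m Ψ) : Lev m (Φ + Ψ) := by
  intro l b R hl
  show Φ l b R + Ψ l b R = 0
  rw [h1 l b R hl, h2 l b R hl, add_zero]

lemma zero (m : ℕ) : Lev m (0 : N) := fun _ _ _ _ => rfl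

end LevAux

open LevAux in
theorem t_lev : S_lev := by
  intro T T₀ T' h0 h1 h2 h3 h4 h5 u
  induction u with
  | nil =>
    refine ⟨?_, ?_⟩
    · intro l b R hl
      simp at hl
    · have : wop T T' [] Φ0 - wop T₀ T' [] Φ0 = 0 := sub_self _
      rw [this]
      exact zero _
  | cons i v ih =>
    obtain ⟨ih1, ih2⟩ := ih
    by_cases hi : i = 1
    · subst hi
      have e1 : ∀ S : N → N, wop S T' (1 :: v) Φ0 = T' (wop S T' v Φ0) := fun S => rfl
      have e2 : (1 :: v).count (1 : Fin 2) = v.count 1 + 1 := List.count_cons_self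
      rw [e1, e1, e2]
      exact ⟨h2 _ _ ih1, h5 _ _ _ ih2⟩
    · have e1 : ∀ S : N → N, wop S T' (i :: v) Φ0 = S (wop S T' v Φ0) := by
        intro S
        simp [wop, hi]
      have e2 : (i :: v).count (1 : Fin 2) = v.count 1 := List.count_cons_of_ne hi
      rw [e1, e1, e2]
      refine ⟨?_, ?_⟩
      · have e3 : T (wop T T' v Φ0) = T₀ (wop T T' v Φ0) +
            (T (wop T T' v Φ0) - T₀ (wop T T' v Φ0)) := by abel
        rw [e3]
        exact add (h0 _ _ ih1) (LevAux.monoL (Nat.le_succ _) (h1 _ _ ih1))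
      · have e3 : T (wop T T' v Φ0) - T₀ (wop T₀ T' v Φ0) =
            (T (wop T T' v Φ0) - T₀ (wop T T' v Φ0)) +
            (T₀ (wop T T' v Φ0) - T₀ (wop T₀ T' v Φ0)) := by abel
        rw [e3]
        exact add (h1 _ _ ih1) (h4 _ _ _ ih2)

end Pool.Agent.NH24.GR
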