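import Pool.Agent.NH24.GR.Stm

/-! Project GR, GR-13: from rational arguments to coefficients. -/

set_option autoImplicit false

namespace Pool.Agent.NH24.GR

open Pool.Agent.H777R4.DM

namespace Ln

/-- the value at `s` of the polynomial with the coefficients `h v`, the entries of `v` less than `M` -/
def Ev (M : ℕ) : (List ℕ → ℚ) → List ℚ → ℚ
  | h, [] => h []
  | h, s :: t => ∑ k ∈ Finset.range M, s ^ k * Ev M (fun v => h (k :: v)) t

theorem Ev_nil (M : ℕ) (h : List ℕ → ℚ) : Ev M h [] = h [] := rfl

theorem Ev_cons (M : ℕ) (h : List ℕ → ℚ) (a : ℚ) (t : List ℚ) :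
    Ev M h (a :: t) = ∑ k ∈ Finset.range M, a ^ k * Ev M (fun v => h (k :: v)) t := rfl

theorem Ev_add (M : ℕ) (h h' : List ℕ → ℚ) (s : List ℚ) :
    Ev M (fun v => h v + h' v) s = Ev M h s + Ev M h' s := by
  induction s generalizing h h' with
  | nil => rfl
  | cons a t ih =>
    simp only [Ev_cons]
    rw [← Finset.sum_add_distrib]
    refine Finset.sum_congr rfl fun k _ => ?_
    rw [ih (fun v => h (k :: v)) (fun v => h' (k :: v)), mul_add]

theorem Ev_smul (M : ℕ) (c : ℚ) (h : List ℕ → ℚ) (s : List ℚ) :
    Ev M (fun v => c * h v) s = c * Ev M h s := by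
  induction s generalizing h with
  | nil => rfl
  | cons a t ih =>
    simp only [Ev_cons]
    rw [Finset.mul_sum]
    refine Finset.sum_congr rfl fun k _ => ?_
    rw [ih (fun v => h (k :: v))]
    ring

theorem Ev_zero (M : ℕ) (s : List ℚ) : Ev M (fun _ => 0) s = 0 := by
  have h := Ev_smul M 0 (fun _ => 0) s
  simpa using h

theorem Ev_sum (M : ℕ) {J : Type} (S : Finset J) (f : J → List ℕ → ℚ) (s : List ℚ) :
    Ev M (fun v => ∑ j ∈ S, f j v) s = ∑ j ∈ S, Ev M (f j) s := by
  classical
  induction S using Finset.induction_on with
  | empty =>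
    simp only [Finset.sum_empty]
    exact Ev_zero M s
  | insert a S ha ih =>
    have e : (fun v => ∑ j ∈ insert a S, f j v) = fun v => f a v + ∑ j ∈ S, f j v := by
      funext v
      rw [Finset.sum_insert ha]
    rw [e, Ev_add, ih, Finset.sum_insert ha]

theorem Ev_mono (M : ℕ) (u : List (Fin 2)) : u.length < M → ∀ s : List ℚ,
    Ev M (fun v => if wordX v = u then 1 else 0) s = mono u s := by
  induction u with
  | nil =>
    intro _ s
    cases s with
    | nil => simp [Ev_nil, mono, wordX]
    | cons a t =>
      rw [Ev_cons, mono]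
      refine Finset.sum_eq_zero fun k _ => ?_
      have e : (fun v : List ℕ => if wordX (k :: v) = [] then (1 : ℚ) else 0) = fun _ => 0 := by
        funext v
        rw [if_neg]
        simp [wordX]
      rw [e, Ev_zero, mul_zero]
  | cons i u ih =>
    intro hM s
    rw [List.length_cons] at hM
    cases s with
    | nil => simp [Ev_nil, mono, wordX]
    | cons a t =>
      by_cases hi : i = 1
      · subst hi
        rw [mono, if_pos rfl, Ev_cons, Finset.sum_eq_single 0]
        · have e : (fun v : List ℕ => if wordX (0 :: v) = 1 :: u then (1 : ℚ) else 0) =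
              fun v => if wordX v = u then 1 else 0 := by
            funext v
            simp [wordX]
          rw [e, ih (by omega), pow_zero, one_mul]
        · intro k _ hk
          obtain ⟨k', rfl⟩ := Nat.exists_eq_succ_of_ne_zero hk
          have e : (fun v : List ℕ => if wordX (k'.succ :: v) = 1 :: u then (1 : ℚ) else 0) =
              fun _ => 0 := by
            funext v
            rw [if_neg]
            simp [wordX, List.replicate_succ]
          rw [e, Ev_zero, mul_zero]
        · intro h
          exact absurd (Finset.mem_range.2 (by omega)) h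
      · have hi0 : i = 0 := by omega
        subst hi0
        rw [mono, if_neg hi, ← ih (by omega) (a :: t), Ev_cons, Ev_cons]
        obtain ⟨M', rfl⟩ : ∃ M', M = M' + 1 := ⟨M - 1, by omega⟩
        rw [Finset.sum_range_succ', Finset.sum_range_succ (fun k => a ^ k *
          Ev (M' + 1) (fun v => if wordX (k :: v) = u then 1 else 0) t)]
        have e0 : (fun v : List ℕ => if wordX (0 :: v) = 0 :: u then (1 : ℚ) else 0) =
            fun _ => 0 := by
          funext v
          rw [if_neg]
          simp [wordX]
        have e1 : (fun v : List ℕ => if wordX (M' :: v) = u then (1 : ℚ) else 0) =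
            fun _ => 0 := by
          funext v
          rw [if_neg]
          intro h
          have h2 := congrArg List.length h
          simp [wordX] at h2
          omega
        rw [e0, e1, Ev_zero, mul_zero, add_zero, mul_zero, add_zero, Finset.mul_sum]
        refine Finset.sum_congr rfl fun k _ => ?_
        have e2 : (fun v : List ℕ => if wordX ((k + 1) :: v) = 0 :: u then (1 : ℚ) else 0) =
            fun v => if wordX (k :: v) = u then 1 else 0 := by
          funext v
          exact if_congr (by simp [wordX, List.replicate_succ]) rfl rfl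
        rw [e2, pow_succ]
        ring

/-- the generating function of the coefficients -/
theorem fh_eq (ψ : A) : ∃ M₀ : ℕ, ∀ M, M₀ ≤ M → ∀ s : List ℚ,
    fh ψ s = Ev M (fun v => co ψ (wordX v)) s := by
  induction ψ using al_induction with
  | h1 l =>
    refine ⟨l.length + 1, fun M hM s => ?_⟩
    unfold fh
    rw [lext_wd, ← Ev_mono M l (by omega) s]
    congr 1
    funext v
    rw [co_wd]
    by_cases h : wordX v = l
    · rw [if_pos h, if_pos h.symm]
    · rw [if_neg h, if_neg (Ne.symm h)]
  | h2 P Q hP hQ =>
    obtain ⟨M1, h1⟩ := hP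
    obtain ⟨M2, h2⟩ := hQ
    refine ⟨max M1 M2, fun M hM s => ?_⟩
    have e : (fun v => co (P + Q) (wordX v)) = fun v => co P (wordX v) + co Q (wordX v) := by
      funext v
      exact co_add P Q _
    rw [e, Ev_add, ← h1 M (le_trans (le_max_left _ _) hM), ← h2 M (le_trans (le_max_right _ _) hM)]
    unfold fh
    rw [map_add]
  | h3 c P hP =>
    obtain ⟨M1, h1⟩ := hP
    refine ⟨M1, fun M hM s => ?_⟩
    have e : (fun v => co (c • P) (wordX v)) = fun v => c * co P (wordX v) := by
      funext v
      exact co_smul c P _
    rw [e, Ev_smul, ← h1 M hM]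
    unfold fh
    rw [map_smul, smul_eq_mul]

theorem sh_add {α : Type} (u v : List α) (F G : List α → ℚ) :
    sh u v (fun t => F t + G t) = sh u v F + sh u v G := by
  fun_induction sh u v F generalizing G with
  | case1 v F => simp only [sh]
  | case2 F a u => simp only [sh]
  | case3 F a u b v ih1 ih2 =>
    rw [sh, ih1, ih2]
    rw [sh]
    ring

theorem sh_smul {α : Type} (u v : List α) (c : ℚ) (F : List α → ℚ) :
    sh u v (fun t => c * F t) = c * sh u v F := by
  fun_induction sh u v F with
  | case1 v F => simp only [sh]
  | case2 F a u => simp only [sh]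
  | case3 F a u b v ih1 ih2 =>
    rw [sh, ih1, ih2]
    ring

theorem sh_sum {α J : Type} (S : Finset J) (u v : List α) (F : J → List α → ℚ) :
    sh u v (fun t => ∑ j ∈ S, F j t) = ∑ j ∈ S, sh u v (F j) := by
  classical
  induction S using Finset.induction_on with
  | empty =>
    have h := sh_smul u v 0 (fun _ => 0)
    simp only [Finset.sum_empty]
    simpa using h
  | insert a S ha ih =>
    have e : (fun t => ∑ j ∈ insert a S, F j t) = fun t => F a t + ∑ j ∈ S, F j t := by
      funext t
      rw [Finset.sum_insert ha]
    rw [e, sh_add, ih, Finset.sum_insert ha]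

/-- shuffles of rational arguments and shuffles of exponents -/
theorem sh_Ev (M : ℕ) (u w : List ℚ) (h : List ℕ → ℚ) :
    sh u w (fun t => Ev M h t) = Ev M (fun α => Ev M (fun β => sh α β h) w) u := by
  induction u generalizing w h with
  | nil =>
    rw [sh, Ev_nil]
    congr 1
    funext β
    rw [sh]
  | cons a u ihu =>
    induction w generalizing h with
    | nil =>
      rw [sh]
      congr 1
      funext α
      rw [Ev_nil]
      cases α with
      | nil => rw [sh]
      | cons x α => rw [sh]
    | cons b w ihw =>
      rw [sh]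
      have e1 : (fun t => Ev M h (a :: t)) =
          fun t => ∑ k ∈ Finset.range M, a ^ k * Ev M (fun v => h (k :: v)) t := rfl
      have e2 : (fun t => Ev M h (b :: t)) =
          fun t => ∑ k ∈ Finset.range M, b ^ k * Ev M (fun v => h (k :: v)) t := rfl
      rw [e1, e2, sh_sum, sh_sum]
      have e3 : ∀ k : ℕ, sh u (b :: w) (fun t => a ^ k * Ev M (fun v => h (k :: v)) t) =
          a ^ k * Ev M (fun α => Ev M (fun β => sh α β fun v => h (k :: v)) (b :: w)) u := by
        intro k
        rw [sh_smul, ihu]
      have e4 : ∀ k : ℕ, sh (a :: u) w (fun t => b ^ k * Ev M (fun v => h (k :: v)) t) =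
          b ^ k * Ev M (fun α => Ev M (fun β => sh α β fun v => h (k :: v)) w) (a :: u) := by
        intro k
        rw [sh_smul, ihw]
      simp only [e3, e4]
      -- the right-hand side
      rw [Ev_cons]
      have e5 : ∀ k : ℕ, Ev M (fun α => Ev M (fun β => sh (k :: α) β h) (b :: w)) u =
          Ev M (fun α => Ev M (fun β => sh α β fun v => h (k :: v)) (b :: w)) u +
          ∑ g ∈ Finset.range M, b ^ g *
            Ev M (fun α => Ev M (fun β => sh (k :: α) β fun v => h (g :: v)) w) u := by
        intro k
        have e6 : (fun α => Ev M (fun β => sh (k :: α) β h) (b :: w)) = fun α =>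
            Ev M (fun β => sh α β fun v => h (k :: v)) (b :: w) +
            ∑ g ∈ Finset.range M, b ^ g *
              Ev M (fun β => sh (k :: α) β fun v => h (g :: v)) w := by
          funext α
          rw [Ev_cons, Ev_cons, ← Finset.sum_add_distrib]
          refine Finset.sum_congr rfl fun g _ => ?_
          have e7 : (fun β => sh (k :: α) (g :: β) h) = fun β =>
              sh α (g :: β) (fun v => h (k :: v)) + sh (k :: α) β (fun v => h (g :: v)) := by
            funext β
            rw [sh]
          rw [e7, Ev_add, mul_add]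
        rw [e6, Ev_add, Ev_sum]
        congr 1
        refine Finset.sum_congr rfl fun g _ => ?_
        rw [Ev_smul]
      simp only [e5, mul_add, Finset.sum_add_distrib]
      congr 1
      simp only [Ev_cons, Finset.mul_sum]
      rw [Finset.sum_comm]
      refine Finset.sum_congr rfl fun k _ => Finset.sum_congr rfl fun g _ => ?_
      ring

theorem Ev_append (M : ℕ) (u w : List ℚ) (h : List ℕ → ℚ) :
    Ev M h (u ++ w) = Ev M (fun α => Ev M (fun β => h (α ++ β)) w) u := by
  induction u generalizing h with
  | nil => rfl
  | cons a u ih =>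
    rw [List.cons_append, Ev_cons, Ev_cons]
    refine Finset.sum_congr rfl fun k _ => ?_
    rw [ih]
    rfl

theorem Ev_reverse (M : ℕ) (u : List ℚ) (h : List ℕ → ℚ) :
    Ev M h u.reverse = Ev M (fun α => h α.reverse) u := by
  induction u generalizing h with
  | nil => rfl
  | cons a u ih =>
    rw [List.reverse_cons, Ev_append, Ev_cons]
    have e : (fun α => Ev M (fun β => h (α ++ β)) [a]) = fun α =>
        ∑ k ∈ Finset.range M, a ^ k * h (α ++ [k]) := rfl
    rw [e, Ev_sum]
    refine Finset.sum_congr rfl fun k _ => ?_
    rw [Ev_smul, ih]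
    congr 2
    funext α
    rw [List.reverse_cons]

/-- a polynomial function which vanishes has no coefficients -/
theorem Ev_inj (M n : ℕ) (h : List ℕ → ℚ) (h0 : ∀ s : List ℚ, s.length = n → Ev M h s = 0) :
    ∀ v : List ℕ, v.length = n → (∀ y ∈ v, y < M) → h v = 0 := by
  induction n generalizing h with
  | zero =>
    intro v hv _
    rw [List.length_eq_zero_iff] at hv
    subst hv
    exact h0 [] rfl
  | succ n ih =>
    intro v hv hM
    cases v with
    | nil => simp at hv
    | cons k v =>
      rw [List.length_cons] at hv
      refine ih (fun v => h (k :: v)) ?_ v (by omega) fun y hy => hM y (List.mem_cons_of_mem _ hy)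
      intro t ht
      have hk : k < M := hM k List.mem_cons_self
      obtain ⟨P, hP⟩ : ∃ P : Polynomial ℚ, P = ∑ g ∈ Finset.range M,
          Polynomial.C (Ev M (fun v => h (g :: v)) t) * Polynomial.X ^ g := ⟨_, rfl⟩
      have hP0 : P = 0 := by
        apply Polynomial.funext
        intro a
        rw [Polynomial.eval_zero, hP, Polynomial.eval_finsetSum, ← h0 (a :: t) (by simp [ht]),
          Ev_cons]
        refine Finset.sum_congr rfl fun g _ => ?_
        rw [Polynomial.eval_mul, Polynomial.eval_C, Polynomial.eval_pow, Polynomial.eval_X,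
          mul_comm]
      have hc := congrArg (fun Q : Polynomial ℚ => Q.coeff k) hP0
      simp only [hP, Polynomial.finsetSum_coeff, Polynomial.coeff_C_mul_X_pow,
        Polynomial.coeff_zero] at hc
      rw [Finset.sum_ite_eq (Finset.range M) k, if_pos (Finset.mem_range.2 hk)] at hc
      exact hc

end Ln

open Ln

theorem t_ln : S_ln := by
  intro ψ r hyp l b R hr
  obtain ⟨M₀, hM₀⟩ := fh_eq ψ
  obtain ⟨M, hM⟩ : ∃ M, M = M₀ + (l.sum + b + R.sum + 1) := ⟨_, rfl⟩
  have hfh := hM₀ M (by omega)
  obtain ⟨h, hh⟩ : ∃ h : List ℕ → ℚ, h = fun v => co ψ (wordX v) := ⟨_, rfl⟩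
  rw [← hh] at hfh
  obtain ⟨D, hD⟩ : ∃ D : List ℕ → ℕ → List ℕ → ℚ, D = fun α g β => h (α.reverse ++ g :: β) +
      (-(-1) ^ l.length) * sh α β (fun w => h (g :: w)) := ⟨_, rfl⟩
  have hl : ∀ y ∈ l, y < M := fun y hy => by
    have := List.le_sum_of_mem hy
    omega
  have hR : ∀ y ∈ R, y < M := fun y hy => by
    have := List.le_sum_of_mem hy
    omega
  have key : ∀ (s : List ℚ) (c : ℚ) (t : List ℚ), s.length = l.length → t.length = R.length →
      Ev M (fun α => Ev M (fun v => match v with
        | [] => 0
        | g :: β => D α g β) (c :: t)) s = 0 := by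
    intro s c t hs ht
    have h1 := hyp s c t (by omega)
    have h2 : fh ψ (s.reverse ++ c :: t) =
        Ev M (fun α => Ev M (fun v => h (α.reverse ++ v)) (c :: t)) s := by
      rw [hfh, Ev_append, Ev_reverse]
    have h3 : sh s t (fun w => fh ψ (c :: w)) = ∑ g ∈ Finset.range M, c ^ g *
        Ev M (fun α => Ev M (fun β => sh α β fun w => h (g :: w)) t) s := by
      have e : (fun w => fh ψ (c :: w)) = fun w => ∑ g ∈ Finset.range M, c ^ g *
          Ev M (fun v => h (g :: v)) w := by
        funext w
        rw [hfh, Ev_cons]
      rw [e, sh_sum]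
      refine Finset.sum_congr rfl fun g _ => ?_
      rw [sh_smul, sh_Ev]
    have h4 : Ev M (fun α => Ev M (fun v => match v with
        | [] => 0
        | g :: β => D α g β) (c :: t)) s =
        Ev M (fun α => Ev M (fun v => h (α.reverse ++ v)) (c :: t)) s +
        (-(-1) ^ l.length) * ∑ g ∈ Finset.range M, c ^ g *
        Ev M (fun α => Ev M (fun β => sh α β fun w => h (g :: w)) t) s := by
      have e1 : (fun α => Ev M (fun v => match v with
          | [] => 0
          | g :: β => D α g β) (c :: t)) = fun α =>
          Ev M (fun v => h (α.reverse ++ v)) (c :: t) + (-(-1) ^ l.length) *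
            ∑ g ∈ Finset.range M, c ^ g * Ev M (fun β => sh α β fun w => h (g :: w)) t := by
        funext α
        rw [Ev_cons, Ev_cons, Finset.mul_sum, ← Finset.sum_add_distrib]
        refine Finset.sum_congr rfl fun g _ => ?_
        rw [hD]
        simp only
        rw [Ev_add, Ev_smul]
        ring
      rw [e1, Ev_add, Ev_smul, Ev_sum]
      congr 2
      refine Finset.sum_congr rfl fun g _ => ?_
      rw [Ev_smul]
    rw [h4, ← h2, ← h3, h1, hs]
    ring
  have step1 : ∀ (c : ℚ) (t : List ℚ), t.length = R.length →
      Ev M (fun v => match v with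
        | [] => 0
        | g :: β => D l g β) (c :: t) = 0 := by
    intro c t ht
    exact Ev_inj M l.length (fun α => Ev M (fun v => match v with
        | [] => 0
        | g :: β => D α g β) (c :: t)) (fun s hs => key s c t hs ht) l rfl hl
  have step2 := Ev_inj M (R.length + 1) (fun v => match v with
        | [] => 0
        | g :: β => D l g β) (fun s hs => by
      cases s with
      | nil => simp at hs
      | cons c t =>
        rw [List.length_cons] at hs
        exact step1 c t (by omega)) (b :: R) (by rw [List.length_cons]) (by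
      intro y hy
      rcases List.mem_cons.1 hy with rfl | hy
      · omega
      · exact hR y hy)
  have step3 : D l b R = 0 := step2
  rw [hD] at step3
  simp only [hh] at step3
  linarith

end Pool.Agent.NH24.GR
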