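import Pool.Agent.NH24.GR.Stm

/-! Job GR-12 (LQ) of project GR: change of variables in the lowest level of the pentagon. -/

set_option autoImplicit false

namespace Pool.Agent.NH24.GR

/-- shuffles of images -/
theorem sh_map_lq {α β : Type} (f : α → β) : ∀ (u v : List α) (F : List β → ℚ),
    sh (u.map f) (v.map f) F = sh u v (fun w => F (w.map f))
  | [], v, F => by simp [sh]
  | a :: u, [], F => by simp [sh]
  | a :: u, b :: v, F => by
    have h1 := sh_map_lq f u (b :: v) (fun t => F (f a :: t))
    have h2 := sh_map_lq f (a :: u) v (fun t => F (f b :: t))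
    simp only [List.map_cons] at h1 h2 ⊢
    rw [sh, sh, h1, h2]
    rfl
termination_by u v => u.length + v.length

theorem t_lq : S_lq := by
  intro hvs φ r h l b R hr
  have h1 := h (l.map fun y => -y) (-b) (R.map (fun y => -y) ++ [0]) (by simp) (by
    simp only [List.length_map, List.length_append, List.length_cons, List.length_nil]
    omega)
  rw [hvs, sh_map_lq] at h1
  have h2 : Dl (l.map fun y => -y) (-b) (R.map (fun y => -y) ++ [0]) = l.reverse ++ b :: R := by
    have hz : zl (-b) (R.map (fun y => -y) ++ [0]) = 0 := by
      simp [zl]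
    unfold Dl
    rw [hz]
    have h3 : (l.map fun y => -y).reverse ++ -b :: (R.map (fun y => -y) ++ [0]) =
        ((l.map fun y => -y).reverse ++ -b :: R.map (fun y => -y)) ++ [0] := by simp
    rw [h3, List.dropLast_concat]
    simp
  rw [h2, List.length_map] at h1
  rw [← h1]
  congr 1
  have h4 : (fun w : List ℚ => φ ((0 - -b) :: (w.map fun y => -y).map fun y => 0 - y)) =
      fun w => φ (b :: w) := by
    funext w
    simp
  rw [h4]

end Pool.Agent.NH24.GR
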