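import Pool.Agent.NH24.GR.Stm

/-! Project GR, part ONE: the words in `A12` and `T23 + T24` applied to `Φ0`. -/

set_option autoImplicit false

namespace Pool.Agent.NH24.GR

namespace OneL

theorem V_mul_aux (c : ℚ) (n : ℕ) : ∀ (φ : List ℚ → ℚ) (l : List ℚ) (b : ℚ) (R : List ℚ),
    l.length + R.length = n → V (fun t => c * φ t) l b R = c * V φ l b R := by
  induction n using Nat.strong_induction_on with
  | _ n IH =>
    intro φ l b R hn
    rcases R with _ | ⟨d, R⟩
    · rw [V, V]
      split_ifs <;> simp
    · rcases l with _ | ⟨a, l⟩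
      · rw [V, V]
        exact IH _ (by simp at hn ⊢; omega) (fun t => φ ((zl b (d :: R) - b) :: t)) _ _ _ rfl
      · rw [V, V, IH _ (by simp at hn ⊢; omega) (fun t => φ ((zl b (d :: R) - b) :: t)) _ _ _ rfl,
          IH _ (by simp at hn ⊢; omega) (fun t => φ ((zl b (d :: R) - b) :: t)) _ _ _ rfl]
        ring

theorem V_mul (c : ℚ) (φ : List ℚ → ℚ) (l : List ℚ) (b : ℚ) (R : List ℚ) :
    V (fun t => c * φ t) l b R = c * V φ l b R := V_mul_aux c _ φ l b R rfl

theorem V_zero (l : List ℚ) (b : ℚ) (R : List ℚ) : V (fun _ => 0) l b R = 0 := by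
  have := V_mul 0 (fun _ => 0) l b R
  simpa using this

theorem mono_nil_cons (s : ℚ) : (fun t => mono [] (s :: t)) = fun _ => (0 : ℚ) := by
  funext t
  rw [mono]

theorem mono_one (u : List (Fin 2)) (s : ℚ) : (fun t => mono (1 :: u) (s :: t)) = mono u := by
  funext t
  rw [mono, if_pos rfl]

theorem mono_ne {i : Fin 2} (hi : i ≠ 1) (u : List (Fin 2)) (s : ℚ) :
    (fun t => mono (i :: u) (s :: t)) = fun t => s * mono u (s :: t) := by
  funext t
  rw [mono, if_neg hi]

theorem mono_cons_nil (i : Fin 2) (u : List (Fin 2)) : mono (i :: u) [] = 0 := by rw [mono]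

end OneL
open OneL

theorem t_one : S_one := by
  intro u
  induction u with
  | nil =>
    intro l b R
    rw [wop]
    rcases R with _ | ⟨c, R⟩
    · rw [V]
      by_cases hl : l = []
      · simp [Φ0, hl, mono]
      · simp [Φ0, hl]
    · have h0 : Φ0 l b (c :: R) = 0 := by simp [Φ0]
      rw [h0]
      rcases l with _ | ⟨a, l⟩
      · rw [V, mono_nil_cons, V_zero]
      · rw [V, mono_nil_cons, V_zero, V_zero, sub_zero]
  | cons i u ih =>
    intro l b R
    rw [wop]
    by_cases hi : i = 1
    · subst hi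
      rw [if_pos rfl]
      show T23 _ l b R + T24 _ l b R = _
      rcases R with _ | ⟨c, R⟩
      · rw [V, mono_cons_nil]
        rcases l with _ | ⟨a, l⟩ <;> simp [T23, T24]
      · rcases l with _ | ⟨a, l⟩
        · rw [V, mono_one]
          simp only [T23, T24, zero_add]
          exact ih _ _ _
        · rw [V, mono_one]
          simp only [T23, T24, add_zero]
          rw [ih, ih]
    · rw [if_neg hi]
      show (zl b R - b) * _ = _
      rcases R with _ | ⟨c, R⟩
      · rw [V, mono_cons_nil]
        simp [zl]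
      · rw [ih]
        rcases l with _ | ⟨a, l⟩
        · rw [V, V, mono_ne hi, V_mul]
        · rw [V, V, mono_ne hi, V_mul, V_mul]
          ring
end Pool.Agent.NH24.GR
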