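import Pool.Agent.NH24.GR.Stm

/-! Project GR (MP_446dfa_ag), job GR-10: the lowest level of the pentagon. -/

set_option autoImplicit false

namespace Pool.Agent.NH24.GR

open Pool.Agent.H777R4.DM

namespace Pe

lemma lext_sum {α W : Type} [AddCommGroup W] [Module ℚ W] (F : List α → W) (P : Al α) :
    lext F P = ∑ m ∈ P.coeff.support, P.coeff m • F (FreeMonoid.toList m) := rfl

lemma lext_congr {α W : Type} [AddCommGroup W] [Module ℚ W] (F G : List α → W) (P : Al α)
    (h : ∀ u, co P u ≠ 0 → F u = G u) : lext F P = lext G P := by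
  rw [lext_sum, lext_sum]
  refine Finset.sum_congr rfl fun m hm => ?_
  rw [h (FreeMonoid.toList m) (Finsupp.mem_support_iff.1 hm)]

lemma lext_zero {α W : Type} [AddCommGroup W] [Module ℚ W] (F : List α → W) (P : Al α)
    (h : ∀ u, co P u ≠ 0 → F u = 0) : lext F P = 0 := by
  rw [lext_congr F (fun _ => 0) P h, lext_sum]
  simp

lemma lext_sub {α W : Type} [AddCommGroup W] [Module ℚ W] (F G : List α → W) (P : Al α) :
    lext (fun u => F u - G u) P = lext F P - lext G P := by
  rw [lext_sum, lext_sum, lext_sum, ← Finset.sum_sub_distrib]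
  refine Finset.sum_congr rfl fun m _ => ?_
  rw [smul_sub]

lemma lext_app (F : List (Fin 2) → N) (P : A) (l : List ℚ) (b : ℚ) (R : List ℚ) :
    (lext F P) l b R = lext (fun u => F u l b R) P := by
  rw [lext_sum, lext_sum]
  simp only [Finset.sum_apply, Pi.smul_apply]

lemma V_lext (ψ : A) : ∀ (n : ℕ) (f : List (Fin 2) → List ℚ → ℚ) (l : List ℚ) (b : ℚ) (R : List ℚ),
    l.length + R.length = n →
    V (fun s => lext (fun u => f u s) ψ) l b R = lext (fun u => V (f u) l b R) ψ := by
  intro n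
  induction n with
  | zero =>
    intro f l b R hn
    have hl : l = [] := List.length_eq_zero_iff.1 (by omega)
    have hR : R = [] := List.length_eq_zero_iff.1 (by omega)
    subst hl; subst hR
    simp [V]
  | succ n ih =>
    intro f l b R hn
    match l, R, hn with
    | l, [], hn =>
      by_cases hl : l = []
      · subst hl; simp [V]
      · simp only [V, if_neg hl]
        exact (lext_zero _ _ fun _ _ => rfl).symm
    | [], c :: R, hn =>
      simp only [V]
      exact ih (fun u t => f u ((zl b (c :: R) - b) :: t)) [] c R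
        (by simp only [List.length_nil, List.length_cons] at hn ⊢; omega)
    | a :: l, c :: R, hn =>
      simp only [V]
      rw [lext_sub]
      congr 1
      · exact ih (fun u t => f u ((zl b (c :: R) - b) :: t)) (a :: l) c R
          (by simp only [List.length_cons] at hn ⊢; omega)
      · exact ih (fun u t => f u ((zl b (c :: R) - b) :: t)) l a (c :: R)
          (by simp only [List.length_cons] at hn ⊢; omega)

/-- additivity -/
def Sb (T : N → N) : Prop := ∀ Φ Ψ : N, T (Φ - Ψ) = T Φ - T Ψ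

lemma sb_of_add {T : N → N} (h : ∀ Φ Ψ : N, T (Φ + Ψ) = T Φ + T Ψ) : Sb T := by
  intro Φ Ψ
  have := h (Φ - Ψ) Ψ
  rw [sub_add_cancel] at this
  rw [this, add_sub_cancel_right]

lemma sb_add {T T' : N → N} (h : Sb T) (h' : Sb T') : Sb (fun Φ => T Φ + T' Φ) := by
  intro Φ Ψ
  show T (Φ - Ψ) + T' (Φ - Ψ) = (T Φ + T' Φ) - (T Ψ + T' Ψ)
  rw [h, h']
  abel

lemma sb_A12 : Sb A12 := by
  intro Φ Ψ
  funext l b R
  simp only [A12, Pi.sub_apply]
  ring

lemma sb_A13 : Sb A13 := by
  intro Φ Ψ
  funext l b R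
  simp only [A13, Pi.sub_apply]
  ring

/-- the level is preserved -/
def Ps (T : N → N) : Prop := ∀ m Φ, Lev m Φ → Lev m (T Φ)
/-- the level is raised -/
def Rs (T : N → N) : Prop := ∀ m Φ, Lev m Φ → Lev (m + 1) (T Φ)

lemma ps_A12 : Ps A12 := by
  intro m Φ h l b R hl
  simp only [A12, h l b R hl, mul_zero]

lemma ps_A13 : Ps A13 := by
  intro m Φ h l b R hl
  simp only [A13, h l b R hl, mul_zero]

lemma ps_zero : Ps (fun _ => 0) := by
  intro m Φ h l b R hl
  rfl

lemma ps_add {T T' : N → N} (h : Ps T) (h' : Ps T') : Ps (fun Φ => T Φ + T' Φ) := by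
  intro m Φ hm l b R hl
  show T Φ l b R + T' Φ l b R = 0
  rw [h m Φ hm l b R hl, h' m Φ hm l b R hl, add_zero]

lemma rs_add {T T' : N → N} (h : Rs T) (h' : Rs T') : Rs (fun Φ => T Φ + T' Φ) := by
  intro m Φ hm l b R hl
  show T Φ l b R + T' Φ l b R = 0
  rw [h m Φ hm l b R hl, h' m Φ hm l b R hl, add_zero]

lemma rs_12 : Rs (fun Φ => T12 Φ - A12 Φ) := by
  intro m Φ h l b R hl
  show T12 Φ l b R - A12 Φ l b R = 0
  match R, hl with
  | [], hl => simp [T12, A12]
  | c :: R', hl =>
    simp only [T12, A12]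
    have h1 : l.length + ((c :: R').dropLast).length < m := by
      rw [List.length_dropLast]
      simp only [List.length_cons] at hl ⊢
      omega
    rw [h l b _ h1, h l c R' (by simp only [List.length_cons] at hl; omega)]
    ring

lemma rs_13 : Rs (fun Φ => T13 Φ - A13 Φ) := by
  intro m Φ h l b R hl
  show T13 Φ l b R - A13 Φ l b R = 0
  match l, hl with
  | [], hl => simp [T13, A13]
  | a :: l', hl =>
    simp only [T13, A13]
    have h1 : ((a :: l').dropLast).length + R.length < m := by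
      rw [List.length_dropLast]
      simp only [List.length_cons] at hl ⊢
      omega
    rw [h l' a R (by simp only [List.length_cons] at hl; omega), h _ b R h1]
    ring

lemma rs_23 : Rs T23 := by
  intro m Φ h l b R hl
  match l, R, hl with
  | [], R, hl => simp [T23]
  | a :: l', [], hl => simp [T23]
  | a :: l', c :: R', hl =>
    simp only [T23]
    rw [h _ c R' (by simp only [List.length_cons] at hl ⊢; omega),
      h l' a _ (by simp only [List.length_cons] at hl ⊢; omega), sub_zero]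

lemma rs_24 : Rs T24 := by
  intro m Φ h l b R hl
  match l, R, hl with
  | a :: l', R, hl => simp [T24]
  | [], [], hl => simp [T24]
  | [], c :: R', hl =>
    simp only [T24]
    rw [h _ c R' (by simp only [List.length_cons, List.length_nil] at hl ⊢; omega)]

lemma rs_34 : Rs T34 := by
  intro m Φ h l b R hl
  match l, hl with
  | [], hl => simp [T34]
  | a :: l', hl =>
    have h1 : ((a :: l').dropLast).length + R.length < m := by
      rw [List.length_dropLast]
      simp only [List.length_cons] at hl ⊢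
      omega
    simp only [T34]
    rw [h _ b R h1]

lemma lev_mono {m m' : ℕ} {Φ : N} (h : Lev m Φ) (hm : m' ≤ m) : Lev m' Φ :=
  fun l b R hl => h l b R (lt_of_lt_of_le hl hm)

lemma lev_app (hlev : S_lev) {T T₀ T' : N → N} (hs : Sb T) (hs0 : Sb T₀) (hs' : Sb T')
    (hp : Ps T₀) (hr : Rs (fun Φ => T Φ - T₀ Φ)) (hr' : Rs T') (u : List (Fin 2)) :
    Lev (u.count 1 + 1) (wop T T' u Φ0 - wop T₀ T' u Φ0) := by
  refine (hlev T T₀ T' hp hr hr' ?_ ?_ ?_ u).2
  · intro m Φ Ψ h
    rw [← hs]
    intro l b R hl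
    have h1 := lev_mono (hr m _ h) (Nat.le_succ m) l b R hl
    have h2 := hp m _ h l b R hl
    have h3 : T (Φ - Ψ) l b R - T₀ (Φ - Ψ) l b R = 0 := h1
    rw [h2, sub_zero] at h3
    exact h3
  · intro m Φ Ψ h
    rw [← hs0]
    exact hp m _ h
  · intro m Φ Ψ h
    rw [← hs']
    exact hr' m _ h

lemma term (hlev : S_lev) {T T₀ T' : N → N} (hs : Sb T) (hs0 : Sb T₀) (hs' : Sb T')
    (hp : Ps T₀) (hr : Rs (fun Φ => T Φ - T₀ Φ)) (hr' : Rs T') (ψ : A) (r : ℕ)
    (hψ : ∀ u, co ψ u ≠ 0 → r ≤ u.count 1) (l : List ℚ) (b : ℚ) (R : List ℚ)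
    (hl : l.length + R.length = r) :
    evop T T' ψ Φ0 l b R = lext (fun u => wop T₀ T' u Φ0 l b R) ψ := by
  unfold evop
  rw [lext_app]
  refine lext_congr _ _ _ fun u hu => ?_
  have h1 := lev_app hlev hs hs0 hs' hp hr hr' u l b R (by have := hψ u hu; omega)
  have h2 : wop T T' u Φ0 l b R - wop T₀ T' u Φ0 l b R = 0 := h1
  exact sub_eq_zero.1 h2

/-- if both operators keep `R`, nothing is created at `R ≠ []` -/
def Kp (T : N → N) : Prop := ∀ Φ : N, (∀ l b R, R ≠ [] → Φ l b R = 0) → ∀ l b R, R ≠ [] → T Φ l b R = 0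

lemma kp_13 : Kp A13 := by
  intro Φ h l b R hR
  simp only [A13, h l b R hR, mul_zero]

lemma kp_34 : Kp T34 := by
  intro Φ h l b R hR
  match l with
  | [] => simp [T34]
  | a :: l' => simp only [T34]; exact h _ b R hR

lemma kp_zero : Kp (fun _ => 0) := by
  intro Φ h l b R hR
  rfl

lemma kp_wop {T T' : N → N} (h : Kp T) (h' : Kp T') (u : List (Fin 2)) :
    ∀ l b R, R ≠ [] → wop T T' u Φ0 l b R = 0 := by
  induction u with
  | nil =>
    intro l b R hR
    simp [wop, Φ0, hR]
  | cons i u ih =>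
    intro l b R hR
    simp only [wop]
    by_cases hi : i = 1
    · rw [if_pos hi]; exact h' _ ih l b R hR
    · rw [if_neg hi]; exact h _ ih l b R hR

lemma T12_Φ0 : T12 Φ0 = 0 := by
  funext l b R
  match R with
  | [] => simp [T12, zl]
  | c :: R' =>
    have h1 : ((c :: R').dropLast = []) ↔ R' = [] := by
      cases R' <;> simp
    simp only [T12, Φ0, h1, sub_self]
    simp

lemma T23_Φ0 : T23 Φ0 = 0 := by
  funext l b R
  match l, R with
  | [], R => simp [T23]
  | a :: l', [] => simp [T23]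
  | a :: l', c :: R' => simp [T23, Φ0]

lemma T12_zero : T12 0 = 0 := by
  funext l b R
  match R with
  | [] => simp [T12]
  | c :: R' => simp [T12]

lemma T23_zero : T23 0 = 0 := by
  funext l b R
  match l, R with
  | [], R => simp [T23]
  | a :: l', [] => simp [T23]
  | a :: l', c :: R' => simp [T23]

lemma wop_five : ∀ u : List (Fin 2), u ≠ [] → wop T12 T23 u Φ0 = 0 := by
  intro u
  induction u with
  | nil => intro h; exact absurd rfl h
  | cons i u ih =>
    intro _
    by_cases hu : u = []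
    · subst hu
      simp only [wop]
      by_cases hi : i = 1
      · rw [if_pos hi, T23_Φ0]
      · rw [if_neg hi, T12_Φ0]
    · simp only [wop]
      rw [ih hu]
      by_cases hi : i = 1
      · rw [if_pos hi, T23_zero]
      · rw [if_neg hi, T12_zero]

lemma sb_zero : Sb (fun _ => 0) := by
  intro Φ Ψ
  show (0 : N) = 0 - 0
  rw [sub_zero]

end Pe

open Pe in
theorem t_pe : S_pe := by
  intro hpent hlev hone hfour hlin hdisj h123 h124 h134 h234 ψ hψ r hr l b R hR hl
  have hP := hpent hlin hdisj h123 h124 h134 h234 ψ hψ Φ0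
  have hP' := congrFun (congrFun (congrFun hP l) b) R
  simp only [Pi.add_apply] at hP'
  have s12 : Sb T12 := sb_of_add (hlin T12 (by simp)).1
  have s13 : Sb T13 := sb_of_add (hlin T13 (by simp)).1
  have s23 : Sb T23 := sb_of_add (hlin T23 (by simp)).1
  have s24 : Sb T24 := sb_of_add (hlin T24 (by simp)).1
  have s34 : Sb T34 := sb_of_add (hlin T34 (by simp)).1
  -- term 1
  have e1 : evop T12 (fun Φ => T23 Φ + T24 Φ) ψ Φ0 l b R = V (fh ψ) l b R := by
    rw [term hlev s12 sb_A12 (sb_add s23 s24) ps_A12 rs_12 (rs_add rs_23 rs_24) ψ r hr l b R hl]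
    have h1 : (fun u => wop A12 (fun Φ => T23 Φ + T24 Φ) u Φ0 l b R) = fun u => V (mono u) l b R := by
      funext u; exact hone u l b R
    rw [h1]
    exact (V_lext ψ _ mono l b R rfl).symm
  -- term 2
  have e2 : evop (fun Φ => T13 Φ + T23 Φ) T34 ψ Φ0 l b R = 0 := by
    have hr2 : Rs (fun Φ => (T13 Φ + T23 Φ) - A13 Φ) := by
      intro m Φ hm
      have h1 := rs_add rs_13 rs_23 m Φ hm
      have h2 : (T13 Φ + T23 Φ) - A13 Φ = (T13 Φ - A13 Φ) + T23 Φ := by abel
      show Lev (m + 1) ((T13 Φ + T23 Φ) - A13 Φ)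
      rw [h2]
      exact h1
    rw [term hlev (sb_add s13 s23) sb_A13 s34 ps_A13 hr2 rs_34 ψ r hr l b R hl]
    exact lext_zero _ _ fun u _ => kp_wop kp_13 kp_34 u l b R hR
  -- term 3
  have e3 : evop T23 T34 ψ Φ0 l b R = 0 := by
    have hr3 : Rs (fun Φ => T23 Φ - (fun _ => (0 : N)) Φ) := by
      intro m Φ hm
      show Lev (m + 1) (T23 Φ - 0)
      rw [sub_zero]
      exact rs_23 m Φ hm
    rw [term hlev s23 sb_zero s34 ps_zero hr3 rs_34 ψ r hr l b R hl]
    exact lext_zero _ _ fun u _ => kp_wop kp_zero kp_34 u l b R hR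
  -- term 4
  have e4 : evop (fun Φ => T12 Φ + T13 Φ) (fun Φ => T24 Φ + T34 Φ) ψ Φ0 l b R = fh ψ (Dl l b R) := by
    have hr4 : Rs (fun Φ => (T12 Φ + T13 Φ) - (A12 Φ + A13 Φ)) := by
      intro m Φ hm
      have h1 := rs_add rs_12 rs_13 m Φ hm
      have h2 : (T12 Φ + T13 Φ) - (A12 Φ + A13 Φ) = (T12 Φ - A12 Φ) + (T13 Φ - A13 Φ) := by abel
      show Lev (m + 1) ((T12 Φ + T13 Φ) - (A12 Φ + A13 Φ))
      rw [h2]
      exact h1
    rw [term hlev (sb_add s12 s13) (sb_add sb_A12 sb_A13) (sb_add s24 s34) (ps_add ps_A12 ps_A13)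
      hr4 (rs_add rs_24 rs_34) ψ r hr l b R hl]
    have h1 : (fun u => wop (fun Φ => A12 Φ + A13 Φ) (fun Φ => T24 Φ + T34 Φ) u Φ0 l b R) =
        fun u => mono u (Dl l b R) := by
      funext u; exact hfour u l b R
    rw [h1]
    rfl
  -- term 5
  have e5 : evop T12 T23 ψ Φ0 l b R = 0 := by
    unfold evop
    rw [lext_zero _ _ fun u hu => ?_]
    · rfl
    · apply wop_five
      intro h0
      have := hψ.low u hu
      rw [h0] at this
      simp at this
  rw [e1, e2, e3, e4, e5] at hP'
  simpa using hP'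

end Pool.Agent.NH24.GR
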