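import Pool.Agent.NH24.GR.Stm
import Pool.Agent.H777R4.DM.Basic

/-! Project GR: the pentagon for the explicit operators -/

set_option autoImplicit false

namespace Pool.Agent.NH24.GR

open Pool.Agent.H777R4.DM

namespace Pent73

/-- the operators are linear -/
def Lin (T : N → N) : Prop := (∀ Φ Ψ : N, T (Φ + Ψ) = T Φ + T Ψ) ∧ ∀ (c : ℚ) (Φ : N), T (c • Φ) = c • T Φ

/-- the linear map -/
def LM (T : N → N) (h : Lin T) : Module.End ℚ N where
  toFun := T
  map_add' := h.1
  map_smul' := h.2

lemma ev_wd (a b : Module.End ℚ N) (T T' : N → N) (ha : ∀ Φ, a Φ = T Φ) (hb : ∀ Φ, b Φ = T' Φ)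
    (u : List (Fin 2)) (Φ : N) : ev a b (wd u) Φ = wop T T' u Φ := by
  have h1 : ∀ u : List (Fin 2), ev a b (wd u) = FreeMonoid.lift ![a, b] (FreeMonoid.ofList u) := by
    intro u
    exact MonoidAlgebra.lift_of _ _
  induction u with
  | nil =>
    rw [h1]
    show (FreeMonoid.lift ![a, b] 1) Φ = Φ
    rw [map_one]
    rfl
  | cons i u ih =>
    rw [h1] at ih ⊢
    have h2 : FreeMonoid.lift ![a, b] (FreeMonoid.ofList (i :: u)) =
        ![a, b] i * FreeMonoid.lift ![a, b] (FreeMonoid.ofList u) := by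
      rw [FreeMonoid.ofList_cons, map_mul, FreeMonoid.lift_eval_of]
    rw [h2]
    show (![a, b] i) ((FreeMonoid.lift ![a, b] (FreeMonoid.ofList u)) Φ) = _
    rw [ih]
    show _ = (if i = 1 then T' else T) (wop T T' u Φ)
    fin_cases i
    · exact ha _
    · exact hb _

lemma ev_eq (a b : Module.End ℚ N) (T T' : N → N) (ha : ∀ Φ, a Φ = T Φ) (hb : ∀ Φ, b Φ = T' Φ)
    (ψ : A) (Φ : N) : ev a b ψ Φ = evop T T' ψ Φ := by
  unfold evop
  refine al_induction (p := fun ψ => ev a b ψ Φ = lext (fun u => wop T T' u Φ) ψ) ψ ?_ ?_ ?_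
  · intro u
    rw [ev_wd a b T T' ha hb, lext_wd]
  · intro P Q hP hQ
    rw [map_add, map_add, LinearMap.add_apply, hP, hQ]
  · intro c P hP
    rw [map_smul, map_smul, LinearMap.smul_apply, hP]

lemma sw {x y z : Module.End ℚ N} (h : x * (y + z) = (y + z) * x) :
    x * (z + y) = (z + y) * x := by
  rw [add_comm z y]
  exact h

/-- the operators as a matrix -/
noncomputable def tt (a b c d e f : Module.End ℚ N) : Fin 4 → Fin 4 → Module.End ℚ N :=
  ![![0, a, b, d], ![a, 0, c, e], ![b, c, 0, f], ![d, e, f, 0]]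

end Pent73

open Pent73 in
theorem t_pent : S_pent := by
  intro hlin hdisj h123 h124 h134 h234 ψ hψ Φ
  have l12 : Lin T12 := hlin T12 (by simp)
  have l13 : Lin T13 := hlin T13 (by simp)
  have l23 : Lin T23 := hlin T23 (by simp)
  have l14 : Lin T14 := hlin T14 (by simp)
  have l24 : Lin T24 := hlin T24 (by simp)
  have l34 : Lin T34 := hlin T34 (by simp)
  set a := LM T12 l12 with ha
  set b := LM T13 l13 with hb
  set c := LM T23 l23 with hc
  set d := LM T14 l14 with hd
  set e := LM T24 l24 with he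
  set f := LM T34 l34 with hf
  have hBr : IsBraid (tt a b c d e f) := by
    refine ⟨?_, ?_, ?_⟩
    · intro i j
      fin_cases i <;> fin_cases j <;> rfl
    · have r1 : a * (b + c) = (b + c) * a := LinearMap.ext fun Φ => (h123 Φ).1
      have r2 : b * (a + c) = (a + c) * b := LinearMap.ext fun Φ => (h123 Φ).2.1
      have r3 : c * (a + b) = (a + b) * c := LinearMap.ext fun Φ => (h123 Φ).2.2
      have r4 : a * (d + e) = (d + e) * a := LinearMap.ext fun Φ => (h124 Φ).1
      have r5 : d * (a + e) = (a + e) * d := LinearMap.ext fun Φ => (h124 Φ).2.1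
      have r6 : e * (a + d) = (a + d) * e := LinearMap.ext fun Φ => (h124 Φ).2.2
      have r7 : b * (d + f) = (d + f) * b := LinearMap.ext fun Φ => (h134 Φ).1
      have r8 : d * (b + f) = (b + f) * d := LinearMap.ext fun Φ => (h134 Φ).2.1
      have r9 : f * (b + d) = (b + d) * f := LinearMap.ext fun Φ => (h134 Φ).2.2
      have r10 : c * (e + f) = (e + f) * c := LinearMap.ext fun Φ => (h234 Φ).1
      have r11 : e * (c + f) = (c + f) * e := LinearMap.ext fun Φ => (h234 Φ).2.1
      have r12 : f * (c + e) = (c + e) * f := LinearMap.ext fun Φ => (h234 Φ).2.2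
      intro i j k hij hik hjk
      fin_cases i <;> fin_cases j <;> fin_cases k <;>
        first
        | exact absurd rfl hij
        | exact absurd rfl hik
        | exact absurd rfl hjk
        | exact r1 | exact r2 | exact r3 | exact r4 | exact r5 | exact r6 | exact r7 | exact r8
        | exact r9 | exact r10 | exact r11 | exact r12
        | exact sw r1 | exact sw r2 | exact sw r3 | exact sw r4 | exact sw r5 | exact sw r6
        | exact sw r7 | exact sw r8 | exact sw r9 | exact sw r10 | exact sw r11 | exact sw r12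
    · have q1 : a * f = f * a := LinearMap.ext fun Φ => (hdisj Φ).1
      have q2 : b * e = e * b := LinearMap.ext fun Φ => (hdisj Φ).2.1
      have q3 : d * c = c * d := LinearMap.ext fun Φ => (hdisj Φ).2.2
      intro i j k l hij hik hil hjk hjl hkl
      fin_cases i <;> fin_cases j <;> fin_cases k <;> fin_cases l <;>
        first
        | exact absurd rfl hij
        | exact absurd rfl hik
        | exact absurd rfl hil
        | exact absurd rfl hjk
        | exact absurd rfl hjl
        | exact absurd rfl hkl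
        | exact q1 | exact q2 | exact q3 | exact q1.symm | exact q2.symm | exact q3.symm
  have hp := congrArg (fun F : Module.End ℚ N => F Φ) (hψ.pent (Module.End ℚ N) _ hBr)
  change (ev a (c + e) ψ) Φ + (ev (b + c) f ψ) Φ =
    (ev c f ψ) Φ + (ev (a + b) (e + f) ψ) Φ + (ev a c ψ) Φ at hp
  rw [ev_eq a (c + e) T12 (fun Φ => T23 Φ + T24 Φ) (fun _ => rfl) (fun _ => rfl),
    ev_eq (b + c) f (fun Φ => T13 Φ + T23 Φ) T34 (fun _ => rfl) (fun _ => rfl),
    ev_eq c f T23 T34 (fun _ => rfl) (fun _ => rfl),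
    ev_eq (a + b) (e + f) (fun Φ => T12 Φ + T13 Φ) (fun Φ => T24 Φ + T34 Φ) (fun _ => rfl)
      (fun _ => rfl),
    ev_eq a c T12 T23 (fun _ => rfl) (fun _ => rfl)] at hp
  exact hp

end Pool.Agent.NH24.GR
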