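import Pool.Agent.NH24.GR.Stm

/-!
# GR-14: elements with the Lie property are primitive
-/

set_option autoImplicit false

namespace Pool.Agent.NH24.GR

open Pool.Agent.H777R4.DM

namespace PR

/-! ### primitive elements -/

lemma inl_wd (l : List ℕ) : inl (wd l) =
    MonoidAlgebra.of ℚ (FreeMonoid ℕ × FreeMonoid ℕ) (FreeMonoid.ofList l, 1) := by
  simp [inl, wd]

lemma inr_wd (l : List ℕ) : inr (wd l) =
    MonoidAlgebra.of ℚ (FreeMonoid ℕ × FreeMonoid ℕ) (1, FreeMonoid.ofList l) := by
  simp [inr, wd]

lemma inl_inr (P Q : AY) : inl P * inr Q = inr Q * inl P := by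
  induction P using al_induction with
  | h1 l =>
    induction Q using al_induction with
    | h1 l' =>
      rw [inl_wd, inr_wd, ← map_mul, ← map_mul]
      congr 1
      simp
    | h2 P Q hP hQ => rw [map_add, mul_add, add_mul, hP, hQ]
    | h3 c P hP => rw [map_smul, mul_smul_comm, smul_mul_assoc, hP]
  | h2 P Q hP hQ => rw [map_add, mul_add, add_mul, hP, hQ]
  | h3 c P hP => rw [map_smul, mul_smul_comm, smul_mul_assoc, hP]

lemma prim_comm {P Q : AY} (hP : Prim P) (hQ : Prim Q) : Prim (P * Q - Q * P) := by
  unfold Prim at *
  have h1 := inl_inr P Q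
  have h2 := inl_inr Q P
  rw [map_sub, map_mul, map_mul, map_sub, map_mul, map_mul, map_sub, map_mul, map_mul, hP, hQ]
  simp only [mul_add, add_mul]
  rw [h1, h2]
  abel

lemma prim_letter (k : ℕ) : Prim (wd [k]) := by
  unfold Prim shΔ
  show (MonoidAlgebra.lift ℚ AYY (FreeMonoid ℕ) (FreeMonoid.lift
    (fun k : ℕ => inl (wd [k]) + inr (wd [k])))) (MonoidAlgebra.of ℚ (FreeMonoid ℕ)
      (FreeMonoid.of k)) = _
  rw [MonoidAlgebra.lift_of, FreeMonoid.lift_eval_of]

lemma prim_zero : Prim (0 : AY) := by
  unfold Prim
  simp

/-- iterated commutators -/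
noncomputable def brA (X : AY) : List ℕ → AY
  | [] => X
  | c :: w => brA (X * wd [c] - wd [c] * X) w

lemma prim_brA {X : AY} (hX : Prim X) (w : List ℕ) : Prim (brA X w) := by
  induction w generalizing X with
  | nil => exact hX
  | cons c w ih => exact ih (prim_comm hX (prim_letter c))

/-- the bracket of a word -/
noncomputable def br : List ℕ → AY
  | [] => 0
  | b :: w => brA (wd [b]) w

lemma prim_br (v : List ℕ) : Prim (br v) := by
  cases v with
  | nil => exact prim_zero
  | cons b w => exact prim_brA (prim_letter b) w

lemma prim_lext (F : AY) : Prim (lext br F) := by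
  induction F using al_induction with
  | h1 v =>
    rw [lext_wd]
    exact prim_br v
  | h2 P Q hP hQ =>
    rw [map_add]
    exact prim_add hP hQ
  | h3 c P hP =>
    rw [map_smul]
    exact prim_smul c hP

/-! ### splittings -/

/-- the sum over the splittings of a word into two complementary subsequences -/
def sp {M : Type} [AddCommGroup M] : List ℕ → (List ℕ → List ℕ → M) → M
  | [], Ψ => Ψ [] []
  | c :: w, Ψ => sp w (fun l R => Ψ (c :: l) R) + sp w (fun l R => Ψ l (c :: R))

lemma sp_congr {M : Type} [AddCommGroup M] {w : List ℕ} {Ψ Ψ' : List ℕ → List ℕ → M}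
    (h : ∀ l R, Ψ l R = Ψ' l R) : sp w Ψ = sp w Ψ' := by
  have : Ψ = Ψ' := by
    funext l R
    exact h l R
  rw [this]

lemma sp_map {M N : Type} [AddCommGroup M] [AddCommGroup N] (f : M →+ N) (w : List ℕ)
    (Ψ : List ℕ → List ℕ → M) : f (sp w Ψ) = sp w (fun l R => f (Ψ l R)) := by
  induction w generalizing Ψ with
  | nil => rfl
  | cons c w ih => rw [sp, sp, map_add, ih, ih]

lemma sp_sub {M : Type} [AddCommGroup M] (w : List ℕ) (Ψ Ψ' : List ℕ → List ℕ → M) :
    sp w (fun l R => Ψ l R - Ψ' l R) = sp w Ψ - sp w Ψ' := by
  induction w generalizing Ψ Ψ' with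
  | nil => rfl
  | cons c w ih =>
    rw [sp, sp, sp, ih, ih]
    abel

lemma sp_neg {M : Type} [AddCommGroup M] (w : List ℕ) (Ψ : List ℕ → List ℕ → M) :
    sp w (fun l R => - Ψ l R) = - sp w Ψ := by
  induction w generalizing Ψ with
  | nil => rfl
  | cons c w ih =>
    rw [sp, sp, ih, ih]
    abel

lemma sp_zero {M : Type} [AddCommGroup M] (w : List ℕ) :
    sp w (fun _ _ => (0 : M)) = 0 := by
  induction w with
  | nil => rfl
  | cons c w ih => rw [sp, ih, add_zero]

lemma sp_sum {M ι : Type} [AddCommGroup M] (w : List ℕ) (s : Finset ι)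
    (Ψ : ι → List ℕ → List ℕ → M) :
    sp w (fun l R => ∑ i ∈ s, Ψ i l R) = ∑ i ∈ s, sp w (Ψ i) := by
  induction w generalizing Ψ with
  | nil => rfl
  | cons c w ih =>
    simp only [sp]
    rw [ih, ih, Finset.sum_add_distrib]

lemma wd_mul (l l' : List ℕ) : (wd l : AY) * wd l' = wd (l ++ l') := by
  unfold wd
  rw [← map_mul]
  rfl

/-- expansion of the iterated commutators -/
lemma brA_eq (X : AY) (w : List ℕ) :
    brA X w = sp w (fun l R => ((-1 : ℚ) ^ l.length) • (wd l.reverse * X * wd R)) := by
  induction w generalizing X with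
  | nil =>
    have h1 : (wd ([] : List ℕ) : AY) = 1 := rfl
    simp [brA, sp, h1]
  | cons c w ih =>
    rw [brA, ih, sp]
    have e1 : ∀ l R : List ℕ, ((-1 : ℚ) ^ l.length) • ((wd l.reverse : AY) *
        (X * wd [c] - wd [c] * X) * wd R) =
        ((-1 : ℚ) ^ l.length) • (wd l.reverse * X * wd (c :: R)) -
        ((-1 : ℚ) ^ l.length) • (wd (c :: l).reverse * X * wd R) := by
      intro l R
      have a1 : (wd (c :: R) : AY) = wd [c] * wd R := by rw [wd_mul]; rfl
      have a2 : (wd (c :: l).reverse : AY) = wd l.reverse * wd [c] := by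
        rw [wd_mul, List.reverse_cons]
      rw [a1, a2, ← smul_sub]
      congr 1
      noncomm_ring
    rw [sp_congr e1, sp_sub, sub_eq_add_neg, add_comm]
    congr 1
    rw [← sp_neg]
    refine sp_congr fun l R => ?_
    rw [List.length_cons, pow_succ, mul_neg_one, neg_smul]

/-! ### shuffles -/

lemma sh_nil_right {α : Type} (u : List α) (F : List α → ℚ) : sh u [] F = F u := by
  cases u with
  | nil => rw [sh]
  | cons a u => rw [sh]

/-- `sh` depends only on the words of the right length -/
lemma sh_zero {α : Type} (n : ℕ) : ∀ (u v : List α) (F : List α → ℚ), u.length + v.length = n →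
    (∀ w, w.length = n → F w = 0) → sh u v F = 0 := by
  induction n with
  | zero =>
    intro u v F hn hF
    have hu : u = [] := List.length_eq_zero_iff.1 (by omega)
    have hv : v = [] := List.length_eq_zero_iff.1 (by omega)
    subst hu hv
    rw [sh]
    exact hF [] rfl
  | succ n ih =>
    intro u v F hn hF
    match u, v with
    | [], v =>
      rw [sh]
      exact hF v (by simpa using hn)
    | a :: u, [] =>
      rw [sh]
      exact hF (a :: u) (by simpa using hn)
    | a :: u, b :: v =>
      rw [sh, ih u (b :: v) _ (by simp only [List.length_cons] at hn ⊢; omega)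
        fun w hw => hF _ (by rw [List.length_cons, hw]),
        ih (a :: u) v _ (by simp only [List.length_cons] at hn ⊢; omega)
        fun w hw => hF _ (by rw [List.length_cons, hw]), add_zero]

lemma sh_mul {α : Type} (c : ℚ) : ∀ (u v : List α) (F : List α → ℚ),
    sh u v (fun w => c * F w) = c * sh u v F
  | [], v, F => by rw [sh, sh]
  | a :: u, [], F => by rw [sh, sh]
  | a :: u, b :: v, F => by
    rw [sh, sh, sh_mul c u (b :: v), sh_mul c (a :: u) v, mul_add]
termination_by u v => u.length + v.length

lemma sh_add {α : Type} : ∀ (u v : List α) (F G : List α → ℚ),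
    sh u v (fun w => F w + G w) = sh u v F + sh u v G
  | [], v, F, G => by rw [sh, sh, sh]
  | a :: u, [], F, G => by rw [sh, sh, sh]
  | a :: u, b :: v, F, G => by
    rw [sh, sh, sh, sh_add u (b :: v), sh_add (a :: u) v]
    ring
termination_by u v => u.length + v.length

lemma sh_const_zero {α : Type} (u v : List α) : sh u v (fun _ => (0 : ℚ)) = 0 :=
  sh_zero _ u v _ rfl fun _ _ => rfl

/-- the number of the splittings is the multiplicity in the shuffle -/
lemma sp_eq_sh (w l₀ R₀ : List ℕ) :
    sp w (fun l R => if l = l₀ ∧ R = R₀ then (1 : ℚ) else 0) =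
      sh l₀ R₀ (fun w' => if w = w' then (1 : ℚ) else 0) := by
  induction w generalizing l₀ R₀ with
  | nil =>
    rw [sp]
    match l₀, R₀ with
    | [], R₀ =>
      rw [sh]
      simp
    | a :: u, [] =>
      rw [sh]
      simp
    | a :: u, b :: v =>
      rw [sh]
      simp [sh_const_zero]
  | cons c w ih =>
    rw [sp]
    match l₀, R₀ with
    | [], [] =>
      rw [sh]
      simp [sp_zero]
    | [], b :: v =>
      rw [sh]
      by_cases h : c = b
      · subst h
        have := ih [] v
        rw [sh] at this
        simpa [sp_zero] using this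
      · simp [h, sp_zero]
    | a :: u, [] =>
      rw [sh]
      by_cases h : c = a
      · subst h
        have := ih u []
        rw [sh_nil_right] at this
        simpa [sp_zero] using this
      · simp [h, sp_zero]
    | a :: u, b :: v =>
      rw [sh]
      congr 1
      · by_cases h : c = a
        · subst h
          have := ih u (b :: v)
          simpa using this
        · simp [h, sp_zero, sh_const_zero]
      · by_cases h : c = b
        · subst h
          have := ih (a :: u) v
          simpa using this
        · simp [h, sp_zero, sh_const_zero]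

/-! ### the coefficients -/

lemma decomp (W : List ℕ) (i : ℕ) (h : i < W.length) :
    W.take i ++ W.getD i 0 :: W.drop (i + 1) = W := by
  rw [List.getD_eq_getElem _ _ h, List.getElem_cons_drop, List.take_append_drop]

/-- the pointwise identity -/
lemma point (W : List ℕ) (b : ℕ) (l R : List ℕ) :
    (-1 : ℚ) ^ l.length * (if l.reverse ++ b :: R = W then (1 : ℚ) else 0) =
      ∑ i ∈ Finset.range W.length, ((-1 : ℚ) ^ i * (if b = W.getD i 0 then 1 else 0)) *
        (if l = (W.take i).reverse ∧ R = W.drop (i + 1) then (1 : ℚ) else 0) := by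
  by_cases h : l.reverse ++ b :: R = W
  · rw [if_pos h, Finset.sum_eq_single l.length]
    · subst h
      have h1 : (l.reverse ++ b :: R).getD l.length 0 = b := by
        rw [List.getD_append_right _ _ _ _ (by simp)]
        simp
      have h2 : (l.reverse ++ b :: R).take l.length = l.reverse := by
        rw [List.take_append_of_le_length (by simp)]
        simp
      have h3 : (l.reverse ++ b :: R).drop (l.length + 1) = R := by
        have e : l.reverse ++ b :: R = (l.reverse ++ [b]) ++ R := by simp
        rw [e, List.drop_left' (by simp)]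
      rw [h1, h2, h3]
      simp
    · intro i hi hne
      have hneg : ¬ (l = (W.take i).reverse ∧ R = W.drop (i + 1)) := by
        rintro ⟨h1, -⟩
        apply hne
        rw [h1, List.length_reverse, List.length_take, min_eq_left (Finset.mem_range.1 hi).le]
      rw [if_neg hneg, mul_zero]
    · intro hcon
      exfalso
      apply hcon
      rw [Finset.mem_range, ← h]
      simp
  · rw [if_neg h, mul_zero]
    symm
    refine Finset.sum_eq_zero fun i hi => ?_
    by_cases h1 : b = W.getD i 0
    · have hneg : ¬ (l = (W.take i).reverse ∧ R = W.drop (i + 1)) := by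
        rintro ⟨h2, h3⟩
        apply h
        rw [h2, h3, h1, List.reverse_reverse]
        exact decomp W i (Finset.mem_range.1 hi)
      rw [if_neg hneg, mul_zero]
    · rw [if_neg h1, mul_zero, zero_mul]

/-- the coefficients of the sum of the brackets -/
lemma co_lext (F : AY) (W : List ℕ) : co (lext br F) W =
    ∑ i ∈ Finset.range W.length, (-1 : ℚ) ^ i *
      sh (W.take i).reverse (W.drop (i + 1)) (fun w => co F (W.getD i 0 :: w)) := by
  induction F using al_induction with
  | h1 v =>
    rw [lext_wd]
    cases v with
    | nil =>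
      rw [br, co_zero]
      symm
      refine Finset.sum_eq_zero fun i _ => ?_
      have : (fun w : List ℕ => co (wd ([] : List ℕ) : AY) (W.getD i 0 :: w)) = fun _ => 0 := by
        funext w
        rw [co_wd, if_neg (by simp)]
      rw [this, sh_const_zero, mul_zero]
    | cons b w =>
      rw [br, brA_eq]
      obtain ⟨f, hf⟩ : ∃ f : AY →+ ℚ, ∀ P, f P = co P W :=
        ⟨{ toFun := fun P => co P W, map_zero' := co_zero W, map_add' := fun P Q => co_add P Q W },
          fun P => rfl⟩
      rw [← hf, sp_map]
      have e1 : ∀ l R : List ℕ, f (((-1 : ℚ) ^ l.length) • ((wd l.reverse : AY) * wd [b] * wd R)) =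
          ∑ i ∈ Finset.range W.length, ((-1 : ℚ) ^ i * (if b = W.getD i 0 then 1 else 0)) *
            (if l = (W.take i).reverse ∧ R = W.drop (i + 1) then (1 : ℚ) else 0) := by
        intro l R
        rw [hf, co_smul, wd_mul, wd_mul, co_wd, List.append_assoc, List.singleton_append]
        exact point W b l R
      rw [sp_congr e1, sp_sum]
      refine Finset.sum_congr rfl fun i _ => ?_
      obtain ⟨g, hg⟩ : ∃ g : ℚ →+ ℚ, ∀ x, g x = ((-1 : ℚ) ^ i * (if b = W.getD i 0 then 1 else 0)) * x :=
        ⟨AddMonoidHom.mulLeft _, fun x => rfl⟩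
      have e2 := sp_map g w (fun l R => if l = (W.take i).reverse ∧ R = W.drop (i + 1) then
        (1 : ℚ) else 0)
      simp only [hg] at e2
      rw [← e2, sp_eq_sh, mul_assoc, ← sh_mul]
      congr 1
      congr 1
      funext w'
      rw [co_wd]
      by_cases h1 : b = W.getD i 0
      · rw [if_pos h1, one_mul]
        by_cases h2 : w = w'
        · rw [if_pos h2, if_pos (by rw [h1, h2])]
        · rw [if_neg h2, if_neg fun h => h2 (List.cons.inj h).2]
      · rw [if_neg h1, zero_mul, if_neg fun h => h1 (List.cons.inj h).1]
  | h2 P Q hP hQ =>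
    rw [map_add, co_add, hP, hQ, ← Finset.sum_add_distrib]
    refine Finset.sum_congr rfl fun i _ => ?_
    simp only [co_add]
    rw [sh_add, mul_add]
  | h3 c P hP =>
    rw [map_smul, co_smul, hP, Finset.mul_sum]
    refine Finset.sum_congr rfl fun i _ => ?_
    simp only [co_smul]
    rw [sh_mul, mul_left_comm]

end PR

open PR in
/-- (PR) -/
theorem t_pr : S_pr := by
  intro F r hr hF hL
  have key : (r : ℚ) • F = lext br F := by
    apply al_ext
    intro W
    rw [co_smul, co_lext]
    by_cases hW : W.length = r
    · have h1 : ∀ i ∈ Finset.range W.length, (-1 : ℚ) ^ i *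
          sh (W.take i).reverse (W.drop (i + 1)) (fun w => co F (W.getD i 0 :: w)) = co F W := by
        intro i hi
        have hi' := Finset.mem_range.1 hi
        have h2 := hL (W.take i).reverse (W.getD i 0) (W.drop (i + 1)) (by
          rw [List.length_reverse, List.length_take, List.length_drop]
          omega)
        rw [List.reverse_reverse, decomp W i hi', List.length_reverse, List.length_take,
          min_eq_left hi'.le] at h2
        exact h2.symm
      rw [Finset.sum_congr rfl h1, Finset.sum_const, Finset.card_range, hW, nsmul_eq_mul]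
    · have h0 : co F W = 0 := by
        by_contra hcon
        exact hW (hF W hcon)
      rw [h0, mul_zero]
      symm
      refine Finset.sum_eq_zero fun i hi => ?_
      have hi' := Finset.mem_range.1 hi
      rw [sh_zero (W.length - 1) _ _ _ (by
        rw [List.length_reverse, List.length_take, List.length_drop]
        omega), mul_zero]
      intro w hw
      by_contra hcon
      apply hW
      rw [← hF _ hcon, List.length_cons, hw]
      omega
  have hr0 : (r : ℚ) ≠ 0 := by
    have : (0 : ℚ) < r := by exact_mod_cast hr
    exact this.ne'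
  have h2 : F = (r : ℚ)⁻¹ • lext br F := by
    rw [← key, smul_smul, inv_mul_cancel₀ hr0, one_smul]
  rw [h2]
  exact prim_smul _ (prim_lext F)

end Pool.Agent.NH24.GR
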