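import Pool.Agent.NH24.GR.Stm

/-! Project GR, (VS): `V` as a sum over shuffles. -/

set_option autoImplicit false

namespace Pool.Agent.NH24.GR

namespace Vs

theorem zl_concat (b : ℚ) (R : List ℚ) (z : ℚ) : zl b (R ++ [z]) = z := by
  simp [zl]

theorem zl_cons (b c : ℚ) (R : List ℚ) (z : ℚ) : zl b (c :: (R ++ [z])) = z := by
  have h := zl_concat b (c :: R) z
  rwa [List.cons_append] at h

theorem V_nil (φ : List ℚ → ℚ) (l : List ℚ) (b : ℚ) : V φ l b [] = if l = [] then φ [] else 0 := by
  rw [V]

theorem V_nc (φ : List ℚ → ℚ) (b c : ℚ) (R : List ℚ) :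
    V φ [] b (c :: R) = V (fun t => φ ((zl b (c :: R) - b) :: t)) [] c R := by
  rw [V]

theorem V_cc (φ : List ℚ → ℚ) (a b c : ℚ) (l R : List ℚ) :
    V φ (a :: l) b (c :: R) = V (fun t => φ ((zl b (c :: R) - b) :: t)) (a :: l) c R -
      V (fun t => φ ((zl b (c :: R) - b) :: t)) l a (c :: R) := by
  rw [V]

theorem sh_nil (v : List ℚ) (F : List ℚ → ℚ) : sh [] v F = F v := by
  rw [sh]

theorem sh_right (u : List ℚ) (F : List ℚ → ℚ) : sh u [] F = F u := by
  cases u with
  | nil => rw [sh]
  | cons a u => rw [sh]

theorem sh_cc (a b : ℚ) (u v : List ℚ) (F : List ℚ → ℚ) : sh (a :: u) (b :: v) F =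
    sh u (b :: v) (fun t => F (a :: t)) + sh (a :: u) v (fun t => F (b :: t)) := by
  rw [sh]

theorem main (n : ℕ) : ∀ (φ : List ℚ → ℚ) (l : List ℚ) (b : ℚ) (R : List ℚ) (z : ℚ),
    l.length + R.length = n →
    V φ l b (R ++ [z]) = (-1) ^ l.length * sh l R (fun w => φ ((z - b) :: w.map fun y => z - y)) := by
  induction n with
  | zero =>
    intro φ l b R z h
    have hl : l = [] := List.length_eq_zero_iff.1 (by omega)
    have hR : R = [] := List.length_eq_zero_iff.1 (by omega)
    subst hl hR
    rw [List.nil_append, V_nc, V_nil, if_pos rfl, sh_nil]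
    simp [zl]
  | succ n ih =>
    intro φ l b R z h
    rcases R with _ | ⟨c, R⟩
    · rcases l with _ | ⟨a, l⟩
      · simp at h
      · have h1 : l.length + ([] : List ℚ).length = n := by
          simpa using h
        have h2 := ih (fun t => φ ((z - b) :: t)) l a [] z h1
        rw [List.nil_append] at h2 ⊢
        have hz : zl b [z] = z := by simp [zl]
        rw [V_cc, V_nil, if_neg (List.cons_ne_nil _ _), hz, h2, sh_right, sh_right, List.length_cons,
          List.map_cons, pow_succ]
        ring
    · rcases l with _ | ⟨a, l⟩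
      · have h1 : ([] : List ℚ).length + R.length = n := by
          simpa using h
        have h2 := ih (fun t => φ ((z - b) :: t)) [] c R z h1
        rw [List.cons_append, V_nc, zl_cons, h2, sh_nil, sh_nil, List.map_cons]
      · have h1 : (a :: l).length + R.length = n := by
          simp only [List.length_cons] at h ⊢
          omega
        have h1' : l.length + (c :: R).length = n := by
          simp only [List.length_cons] at h ⊢
          omega
        have h2 := ih (fun t => φ ((z - b) :: t)) (a :: l) c R z h1
        have h3 := ih (fun t => φ ((z - b) :: t)) l a (c :: R) z h1'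
        rw [List.cons_append] at h3
        rw [List.cons_append, V_cc, zl_cons, h2, h3, sh_cc, List.length_cons, pow_succ]
        simp only [List.map_cons]
        ring

end Vs

theorem t_vs : S_vs := fun φ l b R z => Vs.main _ φ l b R z rfl

end Pool.Agent.NH24.GR
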