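import Pool.Agent.NH24.GR.Fin
import Pool.Agent.NH24.GR.Br1
import Pool.Agent.NH24.GR.Br2
import Pool.Agent.NH24.GR.Br3
import Pool.Agent.NH24.GR.Br4
import Pool.Agent.NH24.GR.Br5
import Pool.Agent.NH24.GR.Pent
import Pool.Agent.NH24.GR.Lev
import Pool.Agent.NH24.GR.One
import Pool.Agent.NH24.GR.Four
import Pool.Agent.NH24.GR.Pe
import Pool.Agent.NH24.GR.Vs
import Pool.Agent.NH24.GR.Lq
import Pool.Agent.NH24.GR.Ln
import Pool.Agent.NH24.GR.Pr
import Pool.Agent.NH24.GR.Gs

/-! Project GR: `grt_1` is in the class of the freeness theorems. -/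

set_option autoImplicit false

namespace Pool.Agent.NH24.GR

open Pool.Agent.H777R4.DM

theorem cls : Class IsGRT :=
  cls_of (t_pe t_pent t_lev t_one t_four t_lin t_disj t_tri123 t_tri124 t_tri134 t_tri234)
    t_vs t_lq t_ln t_pr t_gs t_gc

end Pool.Agent.NH24.GR
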