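import Pool.Agent.NH24.GR.Stm
import Pool.Agent.H777R4.DM.Basic

/-! Project GR: the class of `grt_1`, from the tasks. -/

set_option autoImplicit false

namespace Pool.Agent.NH24.GR

open Pool.Agent.H777R4.DM

lemma sh_congr {α : Type} : ∀ (n : ℕ) (u v : List α), u.length + v.length = n → ∀ F G : List α → ℚ,
    (∀ w, w.length = u.length + v.length → F w = G w) → sh u v F = sh u v G := by
  intro n
  induction n with
  | zero =>
    intro u v h F G hFG
    have h1 : u = [] := List.length_eq_zero_iff.1 (by omega)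
    subst h1
    rw [sh, sh]
    exact hFG v (by simp)
  | succ n ih =>
    intro u v h F G hFG
    cases u with
    | nil =>
      rw [sh, sh]
      exact hFG v (by simp)
    | cons a u =>
      cases v with
      | nil =>
        rw [sh, sh]
        exact hFG _ (by simp)
      | cons b v =>
        rw [sh, sh]
        rw [ih u (b :: v) (by simp at h ⊢; omega) _ (fun t => G (a :: t)) (fun w hw => hFG _ (by
          simp at hw ⊢; omega)), ih (a :: u) v (by simp at h ⊢; omega) _ (fun t => G (b :: t)) (fun w hw => hFG _ (by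
          simp at hw ⊢; omega))]

theorem prim_of (pe : ∀ ψ : A, IsGRT ψ → ∀ r : ℕ, (∀ u, co ψ u ≠ 0 → r ≤ u.count 1) →
      ∀ (l : List ℚ) (b : ℚ) (R : List ℚ), R ≠ [] → l.length + R.length = r →
        V (fh ψ) l b R = fh ψ (Dl l b R))
    (vs : S_vs) (lq : S_lq) (ln : S_ln) (pr : S_pr) (ψ : A) (h : IsGRT ψ) (r : ℕ) (hr : 1 ≤ r)
    (hcnt : ∀ u, co ψ u ≠ 0 → r ≤ u.count 1) (F : AY)
    (hF : ∀ v, co F v = if v.length = r then co ψ (wordX v) else 0) : Prim F := by
  have h1 := ln ψ r (lq vs (fh ψ) r (pe ψ h r hcnt))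
  refine pr F r hr ?_ ?_
  · intro v hv
    rw [hF] at hv
    by_contra hne
    rw [if_neg hne] at hv
    exact hv rfl
  · intro l b R hl
    rw [hF, if_pos (by simp; omega), h1 l b R hl]
    congr 1
    refine sh_congr _ _ _ rfl _ _ fun w hw => ?_
    rw [hF, if_pos (by simp; omega)]

theorem cls_of (pe : ∀ ψ : A, IsGRT ψ → ∀ r : ℕ, (∀ u, co ψ u ≠ 0 → r ≤ u.count 1) →
      ∀ (l : List ℚ) (b : ℚ) (R : List ℚ), R ≠ [] → l.length + R.length = r →
        V (fh ψ) l b R = fh ψ (Dl l b R))
    (vs : S_vs) (lq : S_lq) (ln : S_ln) (pr : S_pr) (gs : S_gs) (gc : S_gc) : Class IsGRT where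
  mem ψ h := h.mem
  low ψ h := h.low
  sub := gs
  comp := gc
  prim ψ h r hr hcnt F hF := prim_of pe vs lq ln pr ψ h r hr hcnt F hF

end Pool.Agent.NH24.GR
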