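import Pool.Agent.H777R4.DM.Stmts2

/-! Project GR (MP_446dfa_ag): the Grothendieck-Teichmueller Lie algebra `grt_1`: definitions and statements.
Goal: any two linearly independent elements of `grt_1` generate a free Lie algebra. -/

set_option autoImplicit false

namespace Pool.Agent.NH24.GR

open Pool.Agent.H777R4.DM

/-- `P ↦ P(a, b)` -/
noncomputable def ev {B : Type} [Ring B] [Algebra ℚ B] (a b : B) : A →ₐ[ℚ] B :=
  MonoidAlgebra.lift ℚ B (FreeMonoid (Fin 2)) (FreeMonoid.lift ![a, b])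

/-- the infinitesimal braid relations for four strands (numbered `0, 1, 2, 3`) -/
structure IsBraid {B : Type} [Ring B] (t : Fin 4 → Fin 4 → B) : Prop where
  symm : ∀ i j, t i j = t j i
  tri : ∀ i j k, i ≠ j → i ≠ k → j ≠ k → t i j * (t i k + t j k) = (t i k + t j k) * t i j
  disj : ∀ i j k l, i ≠ j → i ≠ k → i ≠ l → j ≠ k → j ≠ l → k ≠ l → t i j * t k l = t k l * t i j

/-- the Grothendieck-Teichmueller Lie algebra `grt_1` (Drinfeld): the elements of the free Lie algebra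
`Lie[x₀, x₁]` without terms of degree at most two with `ψ(x₁, x₀) = -ψ(x₀, x₁)`,
`ψ(x₀, x₁) + ψ(x₁, x₂) + ψ(x₂, x₀) = 0` for `x₀ + x₁ + x₂ = 0`, and the pentagon relation. -/
structure IsGRT (ψ : A) : Prop where
  mem : ψ ∈ LieX
  low : ∀ u, co ψ u ≠ 0 → 3 ≤ u.length
  anti : ev (x 1) (x 0) ψ = - ψ
  hex : ψ + ev (x 1) (- x 0 - x 1) ψ + ev (- x 0 - x 1) (x 0) ψ = 0
  pent : ∀ (B : Type) [Ring B] [Algebra ℚ B] (t : Fin 4 → Fin 4 → B), IsBraid t →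
    ev (t 0 1) (t 1 2 + t 1 3) ψ + ev (t 0 2 + t 1 2) (t 2 3) ψ =
      ev (t 1 2) (t 2 3) ψ + ev (t 0 1 + t 0 2) (t 1 3 + t 2 3) ψ + ev (t 0 1) (t 1 2) ψ

/-! ### the representation -/

/-- functions of `(l, b, R)`; think of the list `ξ = l.reverse ++ b :: R` with the marked entry `b` -/
abbrev N : Type := List ℚ → ℚ → List ℚ → ℚ

/-- the last entry of `ξ` -/
def zl (b : ℚ) (R : List ℚ) : ℚ := R.getLastD b

/-- the first entry of `ξ` -/
def fl (l : List ℚ) (b : ℚ) : ℚ := l.getLastD b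

def T12 (Φ : N) : N := fun l b R => (zl b R - b) * Φ l b R +
  match R with
  | [] => 0
  | c :: R' => Φ l b (c :: R').dropLast - Φ l c R'

def T13 (Φ : N) : N := fun l b R => (b - fl l b) * Φ l b R +
  match l with
  | [] => 0
  | a :: l' => Φ l' a R - Φ (a :: l').dropLast b R

def T23 (Φ : N) : N := fun l b R =>
  match l, R with
  | a :: l', c :: R' => Φ (a :: l') c R' - Φ l' a (c :: R')
  | _, _ => 0

def T14 (Φ : N) : N := fun l b R => fl l b * Φ l b R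

def T24 (Φ : N) : N := fun l _ R =>
  match l, R with
  | [], c :: R' => Φ [] c R'
  | _, _ => 0

def T34 (Φ : N) : N := fun l b R =>
  match l with
  | [] => 0
  | a :: l' => Φ (a :: l').dropLast b R

def Φ0 : N := fun l _ R => if l = [] ∧ R = [] then 1 else 0

/-- (BR1) the operators are linear -/
def S_lin : Prop := ∀ T ∈ [T12, T13, T23, T14, T24, T34],
  (∀ Φ Ψ : N, T (Φ + Ψ) = T Φ + T Ψ) ∧ ∀ (c : ℚ) (Φ : N), T (c • Φ) = c • T Φ

/-- (BR2) the relations with `T12, T34`, `T13, T24`, `T14, T23` -/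
def S_disj : Prop := ∀ Φ : N, T12 (T34 Φ) = T34 (T12 Φ) ∧ T13 (T24 Φ) = T24 (T13 Φ) ∧
  T14 (T23 Φ) = T23 (T14 Φ)

/-- (BR3) the relations of the strands 1, 2, 3 -/
def S_tri123 : Prop := ∀ Φ : N, T12 (T13 Φ + T23 Φ) = T13 (T12 Φ) + T23 (T12 Φ) ∧
  T13 (T12 Φ + T23 Φ) = T12 (T13 Φ) + T23 (T13 Φ) ∧ T23 (T12 Φ + T13 Φ) = T12 (T23 Φ) + T13 (T23 Φ)

/-- (BR4) the relations of the strands 1, 2, 4 -/
def S_tri124 : Prop := ∀ Φ : N, T12 (T14 Φ + T24 Φ) = T14 (T12 Φ) + T24 (T12 Φ) ∧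
  T14 (T12 Φ + T24 Φ) = T12 (T14 Φ) + T24 (T14 Φ) ∧ T24 (T12 Φ + T14 Φ) = T12 (T24 Φ) + T14 (T24 Φ)

/-- (BR5) the relations of the strands 1, 3, 4 -/
def S_tri134 : Prop := ∀ Φ : N, T13 (T14 Φ + T34 Φ) = T14 (T13 Φ) + T34 (T13 Φ) ∧
  T14 (T13 Φ + T34 Φ) = T13 (T14 Φ) + T34 (T14 Φ) ∧ T34 (T13 Φ + T14 Φ) = T13 (T34 Φ) + T14 (T34 Φ)

/-- (BR6) the relations of the strands 2, 3, 4 -/
def S_tri234 : Prop := ∀ Φ : N, T23 (T24 Φ + T34 Φ) = T24 (T23 Φ) + T34 (T23 Φ) ∧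
  T24 (T23 Φ + T34 Φ) = T23 (T24 Φ) + T34 (T24 Φ) ∧ T34 (T23 Φ + T24 Φ) = T23 (T34 Φ) + T24 (T34 Φ)

/-- (BR7) the pentagon for the operators: for words `w` in `0, 1`, `wop T T' w Φ` is the product of the
operators `T` (letter 0), `T'` (letter 1) applied to `Φ`, first letter outermost -/
def wop (T T' : N → N) : List (Fin 2) → N → N
  | [], Φ => Φ
  | i :: u, Φ => (if i = 1 then T' else T) (wop T T' u Φ)

/-- `ψ(T, T') Φ` -/
noncomputable def evop (T T' : N → N) (ψ : A) (Φ : N) : N :=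
  lext (fun u => wop T T' u Φ) ψ

def S_pent : Prop := S_lin → S_disj → S_tri123 → S_tri124 → S_tri134 → S_tri234 → ∀ ψ : A, IsGRT ψ →
  ∀ Φ : N, evop T12 (fun Φ => T23 Φ + T24 Φ) ψ Φ + evop (fun Φ => T13 Φ + T23 Φ) T34 ψ Φ =
    evop T23 T34 ψ Φ + evop (fun Φ => T12 Φ + T13 Φ) (fun Φ => T24 Φ + T34 Φ) ψ Φ +
      evop T12 T23 ψ Φ

/-! ### the lowest level -/

/-- the part of `T12` which preserves the level -/
def A12 (Φ : N) : N := fun l b R => (zl b R - b) * Φ l b R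
/-- the part of `T13` which preserves the level -/
def A13 (Φ : N) : N := fun l b R => (b - fl l b) * Φ l b R

/-- `Φ` vanishes at the levels `< m` -/
def Lev (m : ℕ) (Φ : N) : Prop := ∀ l b R, l.length + R.length < m → Φ l b R = 0

/-- (LV) general: if `T = T₀ + T₁` with `T₀` preserving and `T₁, T'` raising the level, then the word `u` applied
to `Φ0` vanishes below the level `u.count 1`, and at this level `T` may be replaced by `T₀` -/
def S_lev : Prop := ∀ T T₀ T' : N → N,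
  (∀ m Φ, Lev m Φ → Lev m (T₀ Φ)) → (∀ m Φ, Lev m Φ → Lev (m + 1) (T Φ - T₀ Φ)) →
  (∀ m Φ, Lev m Φ → Lev (m + 1) (T' Φ)) →
  (∀ m Φ Ψ, Lev m (Φ - Ψ) → Lev m (T Φ - T Ψ)) → (∀ m Φ Ψ, Lev m (Φ - Ψ) → Lev m (T₀ Φ - T₀ Ψ)) →
  (∀ m Φ Ψ, Lev m (Φ - Ψ) → Lev (m + 1) (T' Φ - T' Ψ)) →
  ∀ u : List (Fin 2), Lev (u.count 1) (wop T T' u Φ0) ∧
    Lev (u.count 1 + 1) (wop T T' u Φ0 - wop T₀ T' u Φ0)

/-- the monomial of the word `u = x₀^{k₁} x₁ ⋯ x₀^{k_r} x₁` at `s = [s₁, …, s_r]`: `∏ s_j ^ k_j`; it is zero for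
words which end with `x₀` and if `s` has not the length `u.count 1` -/
def mono : List (Fin 2) → List ℚ → ℚ
  | [], [] => 1
  | [], _ :: _ => 0
  | _ :: _, [] => 0
  | i :: u, s :: t => if i = 1 then mono u t else s * mono u (s :: t)

/-- the generating function of the coefficients of `ψ` at `s` -/
noncomputable def fh (ψ : A) (s : List ℚ) : ℚ := lext (fun u => mono u s) ψ

/-- the value of `ψ(A12, T23 + T24) Φ0` -/
def V : (List ℚ → ℚ) → List ℚ → ℚ → List ℚ → ℚ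
  | φ, l, _, [] => if l = [] then φ [] else 0
  | φ, [], b, c :: R => V (fun t => φ ((zl b (c :: R) - b) :: t)) [] c R
  | φ, a :: l, b, c :: R => V (fun t => φ ((zl b (c :: R) - b) :: t)) (a :: l) c R -
      V (fun t => φ ((zl b (c :: R) - b) :: t)) l a (c :: R)
termination_by _ l _ R => l.length + R.length

/-- (S1) -/
def S_one : Prop := ∀ (u : List (Fin 2)) (l : List ℚ) (b : ℚ) (R : List ℚ),
  wop A12 (fun Φ => T23 Φ + T24 Φ) u Φ0 l b R = V (mono u) l b R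

/-- the list `z - ξ_0, …, z - ξ_{n-1}`, `z = ξ_n` -/
def Dl (l : List ℚ) (b : ℚ) (R : List ℚ) : List ℚ :=
  ((l.reverse ++ b :: R).dropLast).map fun y => zl b R - y

/-- (S4) -/
def S_four : Prop := ∀ (u : List (Fin 2)) (l : List ℚ) (b : ℚ) (R : List ℚ),
  wop (fun Φ => A12 Φ + A13 Φ) (fun Φ => T24 Φ + T34 Φ) u Φ0 l b R = mono u (Dl l b R)

/-- (PE) the lowest level of the pentagon -/
def S_pe : Prop := S_pent → S_lev → S_one → S_four → S_lin → S_disj → S_tri123 → S_tri124 → S_tri134 →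
  S_tri234 → ∀ ψ : A, IsGRT ψ → ∀ r : ℕ, (∀ u, co ψ u ≠ 0 → r ≤ u.count 1) →
  ∀ (l : List ℚ) (b : ℚ) (R : List ℚ), R ≠ [] → l.length + R.length = r →
    V (fh ψ) l b R = fh ψ (Dl l b R)

/-! ### shuffles -/

/-- the sum of `F` over all shuffles of two lists -/
def sh {α : Type} : List α → List α → (List α → ℚ) → ℚ
  | [], v, F => F v
  | a :: u, [], F => F (a :: u)
  | a :: u, b :: v, F => sh u (b :: v) (fun t => F (a :: t)) + sh (a :: u) v (fun t => F (b :: t))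
termination_by u v => u.length + v.length

/-- (VS) -/
def S_vs : Prop := ∀ (φ : List ℚ → ℚ) (l : List ℚ) (b : ℚ) (R : List ℚ) (z : ℚ),
  V φ l b (R ++ [z]) = (-1) ^ l.length * sh l R (fun w => φ ((z - b) :: w.map fun y => z - y))

/-- (LQ) the Lie property for rational arguments -/
def S_lq : Prop := S_vs → ∀ φ : List ℚ → ℚ, ∀ r : ℕ,
  (∀ (l : List ℚ) (b : ℚ) (R : List ℚ), R ≠ [] → l.length + R.length = r → V φ l b R = φ (Dl l b R)) →
  ∀ (l : List ℚ) (b : ℚ) (R : List ℚ), l.length + 1 + R.length = r →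
    φ (l.reverse ++ b :: R) = (-1) ^ l.length * sh l R (fun w => φ (b :: w))

/-- (LN) the Lie property for the coefficients -/
def S_ln : Prop := ∀ (ψ : A) (r : ℕ),
  (∀ (l : List ℚ) (b : ℚ) (R : List ℚ), l.length + 1 + R.length = r →
    fh ψ (l.reverse ++ b :: R) = (-1) ^ l.length * sh l R (fun w => fh ψ (b :: w))) →
  ∀ (l : List ℕ) (b : ℕ) (R : List ℕ), l.length + 1 + R.length = r →
    co ψ (wordX (l.reverse ++ b :: R)) = (-1) ^ l.length * sh l R (fun w => co ψ (wordX (b :: w)))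

/-- (PR) elements with the Lie property are primitive -/
def S_pr : Prop := ∀ (F : AY) (r : ℕ), 1 ≤ r → LenHom F r →
  (∀ (l : List ℕ) (b : ℕ) (R : List ℕ), l.length + 1 + R.length = r →
    co F (l.reverse ++ b :: R) = (-1) ^ l.length * sh l R (fun w => co F (b :: w))) → Prim F

/-! ### the general freeness theorem -/

/-- the properties of `dm` and of `grt` which are used -/
structure Class (Q : A → Prop) : Prop where
  mem : ∀ ψ, Q ψ → ψ ∈ LieX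
  low : ∀ ψ, Q ψ → ∀ u, co ψ u ≠ 0 → 3 ≤ u.length
  sub : ∀ ψ₁ ψ₂, Q ψ₁ → Q ψ₂ → ∀ κ : ℚ, Q (ψ₂ - κ • ψ₁)
  comp : ∀ ψ, Q ψ → ∀ w, Q (comp w ψ)
  prim : ∀ ψ, Q ψ → ∀ r : ℕ, 1 ≤ r → (∀ u, co ψ u ≠ 0 → r ≤ u.count 1) →
    ∀ F : AY, (∀ v, co F v = if v.length = r then co ψ (wordX v) else 0) → Prim F

/-- (GA) two generators -/
def S_ga : Prop := ∀ Q : A → Prop, Class Q → ∀ ψ₁ ψ₂ : A, Q ψ₁ → Q ψ₂ → LinearIndependent ℚ ![ψ₁, ψ₂] →
  Function.Injective (Phi ψ₁ ψ₂)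

/-- (GN) `n` generators -/
def S_gn : Prop := ∀ Q : A → Prop, Class Q → ∀ (n r R : ℕ) (W : Finset ℕ), 1 ≤ r → R < 2 * r →
  (∀ w ∈ W, W.card * R < w) → ∀ (ψ : Fin n → A) (wt : Fin n → ℕ), (∀ i, wt i ∈ W) → (∀ i, Q (ψ i)) →
  (∀ i u, co (ψ i) u ≠ 0 → u.length = wt i ∧ r ≤ u.count 1) →
  (∀ c : Fin n → ℚ, (∀ u, u.count 1 ≤ R → co (∑ i, c i • ψ i) u = 0) → c = 0) →
  Function.Injective (PhiN ψ)

/-- (GS) linear combinations -/
def S_gs : Prop := ∀ ψ₁ ψ₂ : A, IsGRT ψ₁ → IsGRT ψ₂ → ∀ κ : ℚ, IsGRT (ψ₂ - κ • ψ₁)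

/-- (GC) the homogeneous parts -/
def S_gc : Prop := ∀ ψ : A, IsGRT ψ → ∀ w, IsGRT (comp w ψ)

end Pool.Agent.NH24.GR
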