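import Pool.Agent.H777R4.DM.Asm
import Pool.Agent.NH24.GR.Stm

/-! Project GR (MP_446dfa_ag), job GA: two generators, for a class `Q` of elements. The proofs follow
`Pool.Agent.H777R4.DM.Cases` and `Pool.Agent.H777R4.DM.General`. -/

set_option autoImplicit false

namespace Pool.Agent.NH24.GR

open Pool.Agent.H777R4.DM

attribute [local instance 100] LieRing.ofAssociativeRing

namespace GA

variable {Q : A → Prop}

lemma co_zero_word (hQ : Class Q) (tc : TaskTwoC) {ψ : A} (hψ : Q ψ) (n : ℕ) :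
    co ψ (List.replicate n 0) = 0 := by
  rcases Nat.lt_or_ge n 3 with hn | hn
  · by_contra hcon
    have h := hQ.low ψ hψ _ hcon
    rw [List.length_replicate] at h
    omega
  · obtain ⟨m, rfl⟩ := Nat.exists_eq_add_of_le hn
    have hc0 : co ψ [0] = 0 := by
      by_contra hcon
      have h := hQ.low ψ hψ _ hcon
      simp at h
    have h := tc ψ (hQ.mem ψ hψ) 0 hc0 (List.replicate (2 + m) 0)
    rw [List.length_replicate] at h
    rw [Finset.sum_congr rfl (fun j hj => by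
      rw [insertIdx_replicate_zero (2 + m) j (by
        have := Finset.mem_range.1 hj
        omega)])] at h
    rw [Finset.sum_const, Finset.card_range, nsmul_eq_mul] at h
    rcases mul_eq_zero.1 h with h | h
    · exact absurd h (by positivity)
    · rw [show 3 + m = 2 + m + 1 by ring]
      exact h

lemma small (hQ : Class Q) (tc : TaskTwoC) {ψ : A} (hψ : Q ψ) (u : List (Fin 2)) (hu : co ψ u ≠ 0) :
    3 ≤ u.length ∧ 1 ≤ u.count 1 := by
  refine ⟨hQ.low ψ hψ u hu, ?_⟩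
  by_contra hcon
  have hc : u.count 1 = 0 := by omega
  have hmem : (1 : Fin 2) ∉ u := List.count_eq_zero.1 hc
  have hall : ∀ b ∈ u, b = (0 : Fin 2) := by
    intro b hb
    have hb1 : b ≠ 1 := by
      rintro rfl
      exact hmem hb
    omega
  have hrep : u = List.replicate u.length 0 := List.eq_replicate_iff.2 ⟨rfl, hall⟩
  apply hu
  rw [hrep]
  exact co_zero_word hQ tc hψ _

lemma c0 (hQ : Class Q) {ψ : A} (hψ : Q ψ) (i : Fin 2) : co ψ [i] = 0 := by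
  by_contra hcon
  have h := hQ.low ψ hψ _ hcon
  simp at h

lemma exists_prof (hQ : Class Q) (dlt : TaskDelta) (r0 : TaskR0) (ta : TaskTwoA) (tb : TaskTwoB)
    (tc : TaskTwoC) (td : TaskTwoD) {ψ : A} {w : ℕ} (hψ : Q ψ) (hw : LenHom ψ w)
    (h0 : ψ ≠ 0) : ∃ r k, Prof ψ w r k := by
  classical
  have small := small hQ tc hψ
  have hex : ∃ c, ∃ u, co ψ u ≠ 0 ∧ u.count 1 = c := by
    obtain ⟨u, hu⟩ := exists_co_ne h0
    exact ⟨_, u, hu, rfl⟩
  obtain ⟨r, hr⟩ : ∃ r, r = Nat.find hex := ⟨_, rfl⟩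
  have hspec : ∃ u, co ψ u ≠ 0 ∧ u.count 1 = r := by rw [hr]; exact Nat.find_spec hex
  have hmin : ∀ u, co ψ u ≠ 0 → r ≤ u.count 1 := by
    intro u hu
    rw [hr]
    exact Nat.find_min' hex ⟨u, hu, rfl⟩
  have hr1 : 1 ≤ r := by
    obtain ⟨u, hu, h1⟩ := hspec
    rw [← h1]
    exact (small u hu).2
  have hF0 : ∀ v, co (Fp r ψ 0) v = if v.length = r then co ψ (wordX v) else 0 := by
    intro v
    rw [co_Fp, List.replicate_zero, List.append_nil]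
  have hR : ∀ j : ℕ, ((j : ℚ) + 1) • Fp r ψ (j + 1) = - dl (Fp r ψ j) := by
    intro j
    have := congrArg (dp r) (r0 ψ (hQ.mem ψ hψ) (c0 hQ hψ 0) j)
    rw [map_smul, map_neg, dp_dl] at this
    exact this
  have hprim : ∀ j, Prim (Fp r ψ j) := by
    intro j
    induction j with
    | zero => exact hQ.prim ψ hψ r hr1 hmin _ hF0
    | succ j ih =>
      have h1 : Fp r ψ (j + 1) = ((j : ℚ) + 1)⁻¹ • (- dl (Fp r ψ j)) := by
        rw [← hR j, smul_smul, inv_mul_cancel₀ (by positivity), one_smul]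
      rw [h1]
      exact prim_smul _ (prim_neg (dlt _ ih))
  obtain ⟨k, v, hk, hv, hkv⟩ := td ta tb tc ψ (hQ.mem ψ hψ) (c0 hQ hψ 0) (c0 hQ hψ 1)
    (fun u hu => (small u hu).1) r hr1 hmin hspec (Fp r ψ 0) hF0 (hprim 0)
  have hne : Fp r ψ k ≠ 0 := by
    intro h
    have h1 := co_Fp r ψ k v
    rw [h, co_zero, if_pos hv] at h1
    exact hkv h1.symm
  have hbd : ∀ j, Fp r ψ j ≠ 0 → j ≤ w := by
    intro j hj
    obtain ⟨v, hv⟩ := exists_co_ne hj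
    have := (co_Fp_ne hw hv).2
    omega
  refine ⟨r, Nat.findGreatest (fun j => Fp r ψ j ≠ 0) w, hr1, ?_, hw, hmin, ?_, ?_, hprim, hR⟩
  · exact le_trans hk (Nat.le_findGreatest (hbd k hne) hne)
  · exact Nat.findGreatest_spec (P := fun j => Fp r ψ j ≠ 0) (hbd k hne) hne
  · intro j hj
    by_contra hcon
    exact Nat.findGreatest_is_greatest hj (hbd j hcon) hcon

theorem homog_of (hQ : Class Q) (kl1 : TaskKL1) (kl2 : TaskKL2) (l1 : TaskLead1) (l2 : TaskLead2)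
    (dlt : TaskDelta) (r0 : TaskR0) (ta : TaskTwoA) (tb : TaskTwoB) (tc : TaskTwoC) (td : TaskTwoD)
    (sh : TaskShear) : ∀ (ψ₁ ψ₂ : A) (w₁ w₂ : ℕ), Q ψ₁ → Q ψ₂ → LenHom ψ₁ w₁ → LenHom ψ₂ w₂ →
    (∀ a b : ℚ, a • ψ₁ + b • ψ₂ = 0 → a = 0 ∧ b = 0) → Function.Injective (Phi ψ₁ ψ₂) := by
  intro ψ₁ ψ₂ w₁ w₂ h₁ h₂ hw₁ hw₂ hli
  have n1 : ψ₁ ≠ 0 := by
    intro h
    have := hli 1 0 (by rw [h]; simp)
    exact one_ne_zero this.1
  have n2 : ψ₂ ≠ 0 := by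
    intro h
    have := hli 0 1 (by rw [h]; simp)
    exact one_ne_zero this.2
  obtain ⟨r₁, k₁, P₁⟩ := exists_prof hQ dlt r0 ta tb tc td h₁ hw₁ n1
  obtain ⟨r₂, k₂, P₂⟩ := exists_prof hQ dlt r0 ta tb tc td h₂ hw₂ n2
  by_cases hA : ∀ c : ℚ, Fp r₂ ψ₂ k₂ ≠ c • Fp r₁ ψ₁ k₁
  · refine caseA kl1 kl2 l1 l2 P₁ P₂ ?_ hA
    intro c hc
    have hc0 : c ≠ 0 := by
      rintro rfl
      rw [zero_smul] at hc
      exact P₁.top hc
    apply hA c⁻¹
    rw [hc, smul_smul, inv_mul_cancel₀ hc0, one_smul]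
  · push Not at hA
    obtain ⟨κ, hκ⟩ := hA
    have hκ0 : κ ≠ 0 := by
      rintro rfl
      rw [zero_smul] at hκ
      exact P₂.top hκ
    -- depths agree
    have hr : r₁ = r₂ := by
      obtain ⟨v, hv⟩ := exists_co_ne P₁.top
      have h1 := Fp_lenHom _ _ _ v hv
      have h2 : co (Fp r₂ ψ₂ k₂) v ≠ 0 := by
        rw [hκ, co_smul]; exact mul_ne_zero hκ0 hv
      have h3 := Fp_lenHom _ _ _ v h2
      omega
    subst hr
    apply sh ψ₁ ψ₂ κ
    by_cases hw : w₁ = w₂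
    · subst hw
      have hk : k₁ = k₂ := by
        obtain ⟨v, hv⟩ := exists_co_ne P₁.top
        have h1 := (co_Fp_ne P₁.hom hv).2
        have h2 : co (Fp r₁ ψ₂ k₂) v ≠ 0 := by
          rw [hκ, co_smul]; exact mul_ne_zero hκ0 hv
        have h3 := (co_Fp_ne P₂.hom h2).2
        omega
      subst hk
      have hne : ψ₂ - κ • ψ₁ ≠ 0 := by
        intro h
        have := hli (-κ) 1 (by rw [← h]; module)
        exact one_ne_zero this.2
      obtain ⟨r', k', P'⟩ := exists_prof hQ dlt r0 ta tb tc td (hQ.sub ψ₁ ψ₂ h₁ h₂ κ)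
        (lenHom_sub hw₁ hw₂ κ) hne
      have hd : ∀ v, co (Fp r₁ ψ₁ k₁) v ≠ 0 → co (Fp r' (ψ₂ - κ • ψ₁) k') v ≠ 0 → False := by
        intro v hv1 hv2
        have e1 := co_Fp_ne P₁.hom hv1
        have e2 := co_Fp_ne P'.hom hv2
        have e3 : r' = r₁ := by omega
        subst e3
        have e4 : k' = k₁ := by omega
        subst e4
        apply P'.top
        rw [Fp_sub, hκ, sub_self]
      refine caseA kl1 kl2 l1 l2 P₁ P' (not_prop P₁.top ?_) (not_prop P'.top ?_)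
      · intro v hv
        by_contra hcon
        exact hd v hv hcon
      · intro v hv
        by_contra hcon
        exact hd v hcon hv
    · exact caseB2 kl1 kl2 l1 l2 P₁ P₂ κ hκ0 hw hκ

theorem homog (hQ : Class Q) : ∀ (ψ₁ ψ₂ : A) (w₁ w₂ : ℕ), Q ψ₁ → Q ψ₂ → LenHom ψ₁ w₁ → LenHom ψ₂ w₂ →
    (∀ a b : ℚ, a • ψ₁ + b • ψ₂ = 0 → a = 0 ∧ b = 0) → Function.Injective (Phi ψ₁ ψ₂) :=
  homog_of hQ Pool.Agent.H835R4.KL1.taskKL1 Pool.Agent.H428R3.DMKL2.kl2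
    Pool.Agent.H337R3.Lead1.lead1 Pool.Agent.H777R4.DM.Lead2.lead2_ok
    Pool.Agent.H237R3.DM.taskDelta Pool.Agent.H777R4.DM.R0.taskR0 H777DSH.H610.taskTwoA taskTwoB
    Pool.Agent.H352.DSH.taskTwoC Pool.Agent.H988R3.DM.taskTwoD taskShear_proof

/-- the case of linearly independent lowest parts -/
lemma low_indep (hQ : Class Q) (tlow : TaskLow) {ψ₁ ψ₂ : A} (h₁ : Q ψ₁)
    (h₂ : Q ψ₂) {w₁ w₂ : ℕ} (l₁ : ∀ u, co ψ₁ u ≠ 0 → w₁ ≤ u.length)
    (l₂ : ∀ u, co ψ₂ u ≠ 0 → w₂ ≤ u.length)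
    (hli : ∀ a b : ℚ, a • comp w₁ ψ₁ + b • comp w₂ ψ₂ = 0 → a = 0 ∧ b = 0) :
    Function.Injective (Phi ψ₁ ψ₂) := by
  refine tlow ![ψ₁, ψ₂] ![w₁, w₂] ?_ ?_
  · rw [Fin.forall_fin_two]
    exact ⟨l₁, l₂⟩
  · exact homog hQ _ _ w₁ w₂ (hQ.comp ψ₁ h₁ w₁) (hQ.comp ψ₂ h₂ w₂) (comp_lenHom w₁ ψ₁)
      (comp_lenHom w₂ ψ₂) hli

theorem phi_inj (hQ : Class Q) (tlow : TaskLow) (sh : TaskShear) {ψ₁ ψ₂ : A}
    (h₁ : Q ψ₁) (h₂ : Q ψ₂) (hli : ∀ a b : ℚ, a • ψ₁ + b • ψ₂ = 0 → a = 0 ∧ b = 0) :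
    Function.Injective (Phi ψ₁ ψ₂) := by
  have n1 : ψ₁ ≠ 0 := by
    intro h
    have := hli 1 0 (by rw [h]; simp)
    exact one_ne_zero this.1
  have n2 : ψ₂ ≠ 0 := by
    intro h
    have := hli 0 1 (by rw [h]; simp)
    exact one_ne_zero this.2
  obtain ⟨w₁, l₁, c₁⟩ := exists_low n1
  obtain ⟨w₂, l₂, c₂⟩ := exists_low n2
  by_cases hA : ∀ c : ℚ, comp w₂ ψ₂ ≠ c • comp w₁ ψ₁
  · refine low_indep hQ tlow h₁ h₂ l₁ l₂ ?_
    intro a b hab
    have hb : b = 0 := by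
      by_contra hb
      apply hA (-(b⁻¹ * a))
      have h3 : b • comp w₂ ψ₂ = - (a • comp w₁ ψ₁) := eq_neg_of_add_eq_zero_right hab
      have h4 : comp w₂ ψ₂ = b⁻¹ • (b • comp w₂ ψ₂) := by
        rw [smul_smul, inv_mul_cancel₀ hb, one_smul]
      rw [h4, h3]
      module
    refine ⟨?_, hb⟩
    rw [hb, zero_smul, add_zero] at hab
    exact (smul_eq_zero.mp hab).resolve_right c₁
  · push Not at hA
    obtain ⟨κ, hκ⟩ := hA
    have hκ0 : κ ≠ 0 := by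
      rintro rfl
      rw [zero_smul] at hκ
      exact c₂ hκ
    have hw : w₁ = w₂ := by
      obtain ⟨u, hu⟩ := exists_co_ne c₁
      have h1 := comp_lenHom _ _ u hu
      have h2 : co (comp w₂ ψ₂) u ≠ 0 := by
        rw [hκ, co_smul]; exact mul_ne_zero hκ0 hu
      have h3 := comp_lenHom _ _ u h2
      omega
    subst hw
    apply sh ψ₁ ψ₂ κ
    have hne : ψ₂ - κ • ψ₁ ≠ 0 := by
      intro h
      have := hli (-κ) 1 (by rw [← h]; module)
      exact one_ne_zero this.2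
    have hd := hQ.sub ψ₁ ψ₂ h₁ h₂ κ
    obtain ⟨w₃, l₃, c₃⟩ := exists_low hne
    refine low_indep hQ tlow h₁ hd l₁ l₃ ?_
    refine indep_of_ne (comp_lenHom _ _) (comp_lenHom _ _) c₁ c₃ ?_
    rintro rfl
    apply c₃
    rw [map_sub, map_smul, hκ, sub_self]

end GA

theorem t_ga : S_ga := fun _ hQ _ _ h₁ h₂ hli =>
  GA.phi_inj hQ Pool.Agent.H28R3.DM.Low.low taskShear_proof h₁ h₂ (LinearIndependent.pair_iff.mp hli)

end Pool.Agent.NH24.GR
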