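import Pool.Agent.NH24.GR.Stm
import Pool.Agent.H777R4.DM.AsmN
import Pool.Agent.H630R3.DM.FreeP

/-! Project GR, GN: the window theorem for `n` generators, for a class of elements -/

set_option autoImplicit false

namespace Pool.Agent.NH24.GR

namespace Gn

open Pool.Agent.H777R4.DM

attribute [local instance 100] LieRing.ofAssociativeRing

section
variable {Q : A → Prop} (C : Class Q)
include C

lemma q_zero {f : A} (h : Q f) : Q 0 := by
  have := C.sub f f h h 1
  rwa [one_smul, sub_self] at this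

lemma q_smul {f : A} (h : Q f) (c : ℚ) : Q (c • f) := by
  have := C.sub f 0 h (q_zero C h) (-c)
  rwa [neg_smul, sub_neg_eq_add, zero_add] at this

lemma q_add {f g : A} (hf : Q f) (hg : Q g) : Q (f + g) := by
  have := C.sub g f hg hf (-1)
  rwa [neg_smul, one_smul, sub_neg_eq_add] at this

lemma q_sum {ι : Type} (s : Finset ι) (f : ι → A) (h0 : Q 0) (h : ∀ i ∈ s, Q (f i)) :
    Q (∑ i ∈ s, f i) :=
  Finset.sum_induction f Q (fun _ _ => q_add C) h0 h

lemma q_c0 {f : A} (h : Q f) : co f [0] = 0 := by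
  by_contra hne
  have := C.low f h [0] hne
  simp at this

lemma prim_all (dlt : TaskDelta) (r0 : TaskR0) {f : A} {ρ : ℕ} (hd : Q f)
    (hρ : 1 ≤ ρ) (hcnt : ∀ u, co f u ≠ 0 → ρ ≤ u.count 1) : ∀ j, Prim (Fp ρ f j) := by
  intro j
  induction j with
  | zero =>
    refine C.prim f hd ρ hρ hcnt _ ?_
    intro v
    rw [co_Fp, List.replicate_zero, List.append_nil]
  | succ j ih =>
    have hR : ((j : ℚ) + 1) • Fp ρ f (j + 1) = - dl (Fp ρ f j) := by
      have := congrArg (dp ρ) (r0 f (C.mem f hd) (q_c0 C hd) j)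
      rw [map_smul, map_neg, dp_dl] at this
      exact this
    have h1 : Fp ρ f (j + 1) = ((j : ℚ) + 1)⁻¹ • (- dl (Fp ρ f j)) := by
      rw [← hR, smul_smul, inv_mul_cancel₀ (by positivity), one_smul]
    rw [h1]
    exact prim_smul _ (prim_neg (dlt _ ih))

theorem gn_case (l1 : TaskLead1) (ln : TaskLeadN) (fp : TaskFreeP) (dlt : TaskDelta)
    (tb : TaskTwoB) (r0 : TaskR0) (kb : TaskKB) (van : TaskVan)
    (ad : TaskAdMu) (shn : TaskShearN) {n r R : ℕ} {ψ : Fin n → A} {wt : Fin n → ℕ} {W : Finset ℕ}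
    (hr : 1 ≤ r) (hR : R + 1 ≤ 2 * r) (hW : ∀ w ∈ W, W.card * R < w)
    (hwt : ∀ i, wt i ∈ W) (hdm : ∀ i, Q (ψ i)) (hhom : ∀ i, LenHom (ψ i) (wt i))
    (hcnt : ∀ i u, co (ψ i) u ≠ 0 → r ≤ u.count 1)
    (hind : ∀ c : Fin n → ℚ, (∀ u, u.count 1 ≤ R → co (cmb ψ c) u = 0) → c = 0) :
    Function.Injective (PhiN ψ) := by
  have hd : ∀ c w, Q (cmw ψ wt c w) ∨ cmw ψ wt c w = 0 := by
    intro c w
    unfold cmw
    by_cases hn : Nonempty (Fin n)
    · obtain ⟨i0⟩ := hn
      exact Or.inl (q_sum C _ _ (q_zero C (hdm i0)) fun i _ => q_smul C (hdm i) _)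
    · right
      refine Finset.sum_eq_zero fun i _ => ?_
      exact absurd ⟨i⟩ hn
  refine core2 l1 ln fp r0 van ad shn hr hR hwt hhom (fun i => C.mem _ (hdm i)) (fun i => q_c0 C (hdm i))
    hcnt hind ?_ ?_
  · intro c w hw ρ hρr hρR hdep hu
    rcases hd c w with hd | hd
    · obtain ⟨k, hk, hkne⟩ := kb r0 tb _ ρ w (C.mem _ hd) (q_c0 C hd) (cmw_hom hhom c w) (by omega) hdep hu
        (prim_all C dlt r0 hd (by omega) hdep 0)
      refine ⟨k, ?_, hkne⟩
      have h1 := hW w hw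
      have h2 : W.card * ρ ≤ W.card * R := Nat.mul_le_mul_left _ hρR
      have h3 : W.card * ρ < (k + 1) * ρ := by
        have h4 : (k + 1) * ρ = ρ * k + ρ := by ring
        omega
      have := Nat.lt_of_mul_lt_mul_right h3
      omega
    · obtain ⟨u, hu1, _⟩ := hu
      rw [hd, co_zero] at hu1
      exact absurd rfl hu1
  · intro c w hw ρ hρr hρR hdep
    rcases hd c w with hd | hd
    · exact prim_all C dlt r0 hd (by omega) hdep
    · intro k
      have h0 : Fp ρ (cmw ψ wt c w) k = 0 := by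
        rw [hd]
        apply al_ext
        intro v
        rw [co_Fp, co_zero, co_zero, ite_self]
      rw [h0]
      exact prim_zero

end

end Gn

open Gn Pool.Agent.H777R4.DM in
theorem t_gn : S_gn := by
  intro Q C n r R W hr hR hW ψ wt hwt hQ hψ hind
  exact gn_case C Pool.Agent.H337R3.Lead1.lead1 Pool.Agent.H861R3.DM.LeadN.leadN_ok
    Pool.Agent.H630R3.DM.FreeP.taskFreeP Pool.Agent.H237R3.DM.taskDelta taskTwoB
    Pool.Agent.H777R4.DM.R0.taskR0 Pool.Agent.H30R3.DSNKB.taskKB taskVan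
    Pool.Agent.H553R3.taskAdMu Pool.Agent.H826R3.DM.taskShearN hr (by omega) hW hwt hQ
    (fun i u hu => (hψ i u hu).1) (fun i u hu => (hψ i u hu).2) hind

end Pool.Agent.NH24.GR
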